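import Mathlib
import Pool.Agent.H3.Frg.Formula
import Pool.Agent.H3.Frg2.Defs
import Pool.Agent.H3.Frg2.Stmt

set_option autoImplicit false

/-!
# Formulas with gates that count modulo an integer

`MF W`: formulas over `¬`, `→` and gates `mod q i n l` of fan-in `n` (the number of true formulas among
`l 0, …, l (n - 1)` is congruent to `i` modulo `q`) with variables in `W`.
-/

namespace Pool.Agent.H3.Md

open Pool.Agent.H3.Frg

/-- formulas over `¬`, `→` and counting gates of unbounded fan-in -/
inductive MF (W : Type) : Type where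
  /-- variables -/
  | var (v : W) : MF W
  /-- negation -/
  | neg (A : MF W) : MF W
  /-- implication -/
  | imp (A B : MF W) : MF W
  /-- the number of true formulas among `l 0, …, l (n - 1)` is congruent to `i` modulo `q` -/
  | mod (q i n : ℕ) (l : Fin n → MF W) : MF W

variable {W : Type}

/-- formulas without counting gates -/
def ofFm : Fm W → MF W
  | Fm.var v => MF.var v
  | Fm.neg A => MF.neg (ofFm A)
  | Fm.imp A B => MF.imp (ofFm A) (ofFm B)

/-- instances of a scheme -/
def inst (σ : ℕ → MF W) : Fm ℕ → MF W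
  | Fm.var i => σ i
  | Fm.neg A => MF.neg (inst σ A)
  | Fm.imp A B => MF.imp (inst σ A) (inst σ B)

/-- a truth assignment to the formulas which respects the counting gates -/
def Good (v : MF W → Bool) : Prop :=
  ∀ q i n l, v (MF.mod q i n l) = decide ((List.ofFn l).countP v % q = i % q)

/-- Derivations: every line is a hypothesis, an axiom or follows from two earlier lines by modus
ponens. The axioms are all formulas `ψ(σ)` where `ψ` is a propositional formula of size at most `ℓ`
such that `ψ(σ)` is true whenever the counting gates `σ i` have the right values. -/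
def MDer (ℓ : ℕ) (Hyp : Set (MF W)) {L : ℕ} (pf : Fin L → MF W) : Prop :=
  ∀ i, pf i ∈ Hyp ∨
    (∃ (ψ : Fm ℕ) (σ : ℕ → MF W), ψ.len ≤ ℓ ∧ pf i = inst σ ψ ∧
      ∀ v, Good v → ψ.eval (fun j => v (σ j)) = true) ∨
    ∃ j < i, ∃ k < i, pf k = MF.imp (pf j) (pf i)

/-- the outermost counting gates -/
def gates : MF W → List (MF W)
  | MF.var _ => []
  | MF.neg A => gates A
  | MF.imp A B => gates A ++ gates B
  | MF.mod q i n l => [MF.mod q i n l]

/-- the number of symbols (variables in binary), every outermost counting gate counts as one symbol -/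
def msz : MF ℕ → ℕ
  | MF.var i => (Fm.var i).enc.length
  | MF.neg A => msz A + 2
  | MF.imp A B => msz A + msz B + 2
  | MF.mod _ _ _ _ => 1

/-- depth at most `d` over variables, formulas with `P` and counting gates -/
inductive MDep (P : MF W → Prop) : ℕ → MF W → Prop
  | var (d : ℕ) (v : W) : MDep P d (MF.var v)
  | base (d : ℕ) (A : MF W) : P A → MDep P d A
  | gate (d q i n : ℕ) (l : Fin n → MF W) : MDep P d (MF.mod q i n l)
  | neg (d : ℕ) (A : MF W) : MDep P d A → MDep P (d + 1) (MF.neg A)
  | imp (d : ℕ) (A B : MF W) : MDep P d A → MDep P (d + 1) B → MDep P (d + 1) (MF.imp A B)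

/-- Formulas of nesting level `t`: depth at most `D` over variables, formulas with `P` and at most `c`
different counting gates `mod q i n l` with `Q q`, where all formulas `l j` have level `t - 1`. -/
def Lv (P : MF W → Prop) (Q : ℕ → Prop) (D c : ℕ) : ℕ → MF W → Prop
  | 0, A => MDep P D A ∧ gates A = []
  | t + 1, A => MDep P D A ∧ {M | M ∈ gates A}.ncard ≤ c ∧
      ∀ q i n l, MF.mod q i n l ∈ gates A → Q q ∧ ∀ j, Lv P Q D c t (l j)

/-- `F` is closed under immediate subformulas, except for the formulas in `G` -/
def CloM (G : Set (MF W)) (F : Set (MF W)) : Prop :=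
  (∀ A, MF.neg A ∈ F → MF.neg A ∉ G → A ∈ F) ∧
    (∀ A B, MF.imp A B ∈ F → MF.imp A B ∉ G → A ∈ F ∧ B ∈ F) ∧
    ∀ q i n l, MF.mod q i n l ∈ F → ∀ j, l j ∈ F

end Pool.Agent.H3.Md
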