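import Mathlib
import Pool.Agent.H3.Alg.Phi

set_option autoImplicit false
set_option linter.unusedSectionVars false

/-!
# Expansion over the values of a few Boolean functions, and counting modulo prime powers
-/

namespace Pool.Agent.H3.Md

open Finset Pool.Agent.H3.Frg Pool.Agent.H3.Alg

variable {K : Type} [Field K] {E : Type} [Fintype E] [DecidableEq E]

theorem KDg_const (c : K) : KDg (fun _ : E → Bool => c) 0 := by
  have h := KDg_smul (K := K) (E := E) c (KDg_chi (K := K) (∅ : Finset E))
  rw [Finset.card_empty] at h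
  have h1 : (fun z : E → Bool => c * kchi K ∅ z) = fun _ => c := by
    funext z
    rw [kchi_empty, mul_one]
  rwa [h1] at h

theorem KDg_sub {r q : (E → Bool) → K} {D : ℕ} (hr : KDg r D) (hq : KDg q D) :
    KDg (fun z => r z - q z) D := by
  have h := KDg_add hr (KDg_smul (-1) hq)
  convert h using 2 with z
  ring

theorem KDg_prod (h2 : (2 : K) ≠ 0) {ι : Type} (s : Finset ι) {D : ℕ}
    (p : ι → (E → Bool) → K) (h : ∀ i ∈ s, KDg (p i) D) :
    KDg (fun z => ∏ i ∈ s, p i z) (s.card * D) := by
  classical
  induction s using Finset.induction_on with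
  | empty =>
    simp only [Finset.prod_empty]
    exact KDg_mono (KDg_const 1) (by omega)
  | insert a s ha ih =>
    have h1 : (fun z => ∏ i ∈ insert a s, p i z) = fun z => p a z * ∏ i ∈ s, p i z := by
      funext z
      rw [Finset.prod_insert ha]
    rw [h1, Finset.card_insert_of_notMem ha]
    refine KDg_mono (KDg_mul h2 (h a (Finset.mem_insert_self _ _))
      (ih fun i hi => h i (Finset.mem_insert_of_mem hi))) (le_of_eq ?_)
    ring

variable {M : Type}

open scoped Classical in
/-- the indicator of the values -/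
noncomputable def chx (K : Type) [Field K] (Γ : Finset M) (e : (E → Bool) → M → Bool)
    (B : Finset M) (a : E → Bool) : K :=
  ∏ m ∈ Γ, if m ∈ B then rb K (e a m) else 1 - rb K (e a m)

theorem chx_kdg (h2 : (2 : K) ≠ 0) (Γ : Finset M) (e : (E → Bool) → M → Bool) {D : ℕ}
    (h : ∀ m ∈ Γ, KDg (fun a => rb K (e a m)) D) (B : Finset M) :
    KDg (chx K Γ e B) (Γ.card * D) := by
  refine KDg_prod h2 Γ _ fun m hm => ?_
  split_ifs
  · exact h m hm
  · exact KDg_sub (KDg_mono (KDg_const 1) (Nat.zero_le _)) (h m hm)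

open scoped Classical in
/-- the expansion -/
theorem expand (Γ : Finset M) (e : (E → Bool) → M → Bool)
    (H : (M → Bool) → (E → Bool) → K)
    (hH : ∀ b b', (∀ m ∈ Γ, b m = b' m) → H b = H b') (a : E → Bool) :
    H (e a) a = ∑ B ∈ Γ.powerset, 1 * (chx K Γ e B a * H (fun m => decide (m ∈ B)) a) := by
  rw [Finset.sum_eq_single (Γ.filter fun m => e a m = true)]
  · have h1 : chx K Γ e (Γ.filter fun m => e a m = true) a = 1 := by
      unfold chx
      refine Finset.prod_eq_one fun m hm => ?_
      cases hb : e a m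
      · rw [if_neg (by simp [hb])]
        simp [rb]
      · rw [if_pos (by simp [hb, hm])]
        simp [rb]
    rw [h1, one_mul, one_mul]
    refine congrFun (hH _ _ fun m hm => ?_) a
    cases hb : e a m
    · simp [hb]
    · simp [hb, hm]
  · intro B hB hne
    have h1 : chx K Γ e B a = 0 := by
      rw [Finset.mem_powerset] at hB
      have h2 : ∃ m ∈ Γ, ¬ (m ∈ B ↔ e a m = true) := by
        by_contra hcon
        push Not at hcon
        refine hne ?_
        ext m
        rw [Finset.mem_filter]
        constructor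
        · intro hm
          exact ⟨hB hm, (hcon m (hB hm)).1 hm⟩
        · rintro ⟨hm, he⟩
          exact (hcon m hm).2 he
      obtain ⟨m, hm, h3⟩ := h2
      refine Finset.prod_eq_zero hm ?_
      cases hb : e a m
      · rw [if_pos]
        · simp [rb]
        · by_contra h4
          exact h3 ⟨fun h => absurd h h4, fun h => by rw [hb] at h; exact absurd h (by simp)⟩
      · rw [if_neg]
        · simp [rb]
        · intro h4
          exact h3 ⟨fun _ => hb, fun _ => h4⟩
    rw [h1, zero_mul, mul_zero]
  · intro h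
    exact absurd (Finset.mem_powerset.2 (Finset.filter_subset _ _)) h

variable {U : Type} [Fintype U] [DecidableEq U] {src tgt : E → U} {d : ℕ} {ε : U → K}

theorem expand_kdg (h2 : (2 : K) ≠ 0) (Γ : Finset M) (e : (E → Bool) → M → Bool) {D D' : ℕ}
    (h : ∀ m ∈ Γ, KDg (fun a => rb K (e a m)) D)
    (H : (M → Bool) → (E → Bool) → K)
    (hH : ∀ b b', (∀ m ∈ Γ, b m = b' m) → H b = H b') (hD : ∀ b, KDg (H b) D') :
    KDg (fun a => H (e a) a) (Γ.card * D + D') := by
  classical
  have h1 : (fun a => H (e a) a) = fun a => ∑ B ∈ Γ.powerset,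
      1 * (chx K Γ e B a * H (fun m => decide (m ∈ B)) a) := by
    funext a
    exact expand Γ e H hH a
  rw [h1]
  exact KDg_sum _ _ _ fun B _ => KDg_mul h2 (chx_kdg h2 Γ e h B) (hD _)

theorem expand_kz (h2 : (2 : K) ≠ 0) (Γ : Finset M) (e : (E → Bool) → M → Bool) {D k : ℕ}
    (h : ∀ m ∈ Γ, KDg (fun a => rb K (e a m)) D)
    (H : (M → Bool) → (E → Bool) → K)
    (hH : ∀ b b', (∀ m ∈ Γ, b m = b' m) → H b = H b')
    (hD : ∀ b, KZ src tgt d ε (k + Γ.card * D) (H b)) :
    KZ src tgt d ε k (fun a => H (e a) a) := by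
  classical
  have h1 : (fun a => H (e a) a) = fun a => ∑ B ∈ Γ.powerset,
      1 * (chx K Γ e B a * H (fun m => decide (m ∈ B)) a) := by
    funext a
    exact expand Γ e H hH a
  rw [h1]
  exact KZ_sum _ _ _ fun B _ => KZ_mul h2 (chx_kdg h2 Γ e h B) (hD _)

/-- the number of true values, over `j`, has degree `j * D` -/
theorem choose_kdg (h2 : (2 : K) ≠ 0) (l : List M) (e : (E → Bool) → M → Bool) {D : ℕ}
    (h : ∀ m ∈ l, KDg (fun a => rb K (e a m)) D) (j : ℕ) :
    KDg (fun a => (((l.countP (e a)).choose j : ℕ) : K)) (j * D) := by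
  induction l generalizing j with
  | nil =>
    simp only [List.countP_nil]
    exact KDg_mono (KDg_const _) (Nat.zero_le _)
  | cons m l ih =>
    have ih' := ih fun m' hm' => h m' (by simp [hm'])
    cases j with
    | zero =>
      simp only [Nat.choose_zero_right]
      exact KDg_mono (KDg_const _) (Nat.zero_le _)
    | succ j =>
      have h1 : (fun a => ((((m :: l).countP (e a)).choose (j + 1) : ℕ) : K))
          = fun a => ((((l.countP (e a)).choose (j + 1) : ℕ)) : K)
            + rb K (e a m) * (((l.countP (e a)).choose j : ℕ) : K) := by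
        funext a
        rw [List.countP_cons]
        cases hb : e a m
        · simp [rb]
        · simp only [rb, if_true, one_mul]
          rw [Nat.choose_succ_succ]
          push_cast
          ring
      rw [h1]
      refine KDg_add (ih' (j + 1)) (KDg_mono (KDg_mul h2 (h m (by simp)) (ih' j)) (le_of_eq ?_))
      ring

/-- Newton interpolation at `0, …, n - 1` -/
theorem newton (n : ℕ) (f : ℕ → K) :
    ∃ c : ℕ → K, ∀ s < n, ∑ j ∈ Finset.range n, c j * ((s.choose j : ℕ) : K) = f s := by
  induction n with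
  | zero => exact ⟨fun _ => 0, fun s hs => absurd hs (by omega)⟩
  | succ n ih =>
    obtain ⟨c, hc⟩ := ih
    refine ⟨fun j => if j = n then f n - ∑ j ∈ Finset.range n, c j * ((n.choose j : ℕ) : K)
      else c j, fun s hs => ?_⟩
    rw [Finset.sum_range_succ]
    beta_reduce
    rw [if_pos rfl]
    have h1 : ∑ x ∈ Finset.range n, (if x = n then f n - ∑ j ∈ Finset.range n,
        c j * ((n.choose j : ℕ) : K) else c x) * ((s.choose x : ℕ) : K)
        = ∑ x ∈ Finset.range n, c x * ((s.choose x : ℕ) : K) := by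
      refine Finset.sum_congr rfl fun x hx => ?_
      rw [Finset.mem_range] at hx
      rw [if_neg (by omega)]
    rw [h1]
    rcases Nat.lt_succ_iff_lt_or_eq.1 hs with h | h
    · rw [hc s h, Nat.choose_eq_zero_of_lt h]
      simp
    · rw [h, Nat.choose_self]
      push_cast
      ring

/-- binomial coefficients are periodic -/
theorem choose_add_pow {p e : ℕ} (hp : p.Prime) [CharP K p] (s j : ℕ) (hj : j < p ^ e) :
    (((s + p ^ e).choose j : ℕ) : K) = ((s.choose j : ℕ) : K) := by
  rw [Nat.add_choose_eq, Finset.Nat.sum_antidiagonal_eq_sum_range_succ_mk]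
  push_cast
  rw [Finset.sum_eq_single j]
  · simp
  · intro x hx hne
    rw [Finset.mem_range] at hx
    have h1 : p ∣ (p ^ e).choose (j - x) :=
      hp.dvd_choose_pow (by omega) (by omega)
    have h3 : (((p ^ e).choose (j - x) : ℕ) : K) = 0 := (CharP.cast_eq_zero_iff K p _).2 h1
    rw [h3, mul_zero]
  · intro h
    exact absurd (Finset.mem_range.2 (by omega)) h

theorem choose_periodic {p e : ℕ} (hp : p.Prime) [CharP K p] (s j : ℕ) (hj : j < p ^ e) :
    ((s.choose j : ℕ) : K) = (((s % p ^ e).choose j : ℕ) : K) := by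
  have h1 : ∀ m r : ℕ, (((r + m * p ^ e).choose j : ℕ) : K) = ((r.choose j : ℕ) : K) := by
    intro m
    induction m with
    | zero => intro r; simp
    | succ m ih =>
      intro r
      rw [Nat.succ_mul, ← add_assoc, choose_add_pow hp _ _ hj, ih]
  conv_lhs => rw [← Nat.mod_add_div s (p ^ e), mul_comm]
  exact h1 _ _

/-- the gate of a list has small degree -/
theorem mod_kdg (h2 : (2 : K) ≠ 0) {p e : ℕ} (hp : p.Prime) [CharP K p] (l : List M)
    (f : (E → Bool) → M → Bool) {D : ℕ} (h : ∀ m ∈ l, KDg (fun a => rb K (f a m)) D) (i : ℕ) :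
    KDg (fun a => rb K (decide (l.countP (f a) % p ^ e = i % p ^ e))) (p ^ e * D) := by
  obtain ⟨c, hc⟩ := newton (K := K) (p ^ e) fun s => if s = i % p ^ e then 1 else 0
  have hpos : 0 < p ^ e := Nat.pow_pos hp.pos
  have h1 : (fun a => rb K (decide (l.countP (f a) % p ^ e = i % p ^ e)))
      = fun a => ∑ j ∈ Finset.range (p ^ e), c j * (((l.countP (f a)).choose j : ℕ) : K) := by
    funext a
    have h3 := hc (l.countP (f a) % p ^ e) (Nat.mod_lt _ hpos)
    have h4 : ∑ j ∈ Finset.range (p ^ e), c j * (((l.countP (f a)).choose j : ℕ) : K)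
        = ∑ j ∈ Finset.range (p ^ e),
          c j * (((l.countP (f a) % p ^ e).choose j : ℕ) : K) := by
      refine Finset.sum_congr rfl fun j hj => ?_
      rw [Finset.mem_range] at hj
      rw [choose_periodic hp _ _ hj]
    rw [h4, h3]
    by_cases h5 : l.countP (f a) % p ^ e = i % p ^ e
    · simp [rb, h5]
    · simp [rb, h5]
  rw [h1]
  refine KDg_sum _ _ _ fun j hj => ?_
  rw [Finset.mem_range] at hj
  exact KDg_mono (choose_kdg h2 l f h j) (Nat.mul_le_mul_right _ (by omega))

end Pool.Agent.H3.Md
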