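import Mathlib
import Pool.Agent.H3.Md.Defs
import Pool.Agent.H1.FX.Atm
import Pool.Agent.H3.Frg2.Stmt

set_option autoImplicit false
set_option linter.unusedSectionVars false

/-!
# Values of formulas with counting gates

`sb v0 b A`: the outermost gates `M` of `A` are replaced by the constants `b M`. Given values `lbl` of
the formulas without gates, `ev lbl v0 A` is the value of `A`: a gate has exactly the value given by the
number of true formulas in its list, another formula `A` has the value `lbl (sb v0 b A)` where `b` are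
the values of the gates.
-/

namespace Pool.Agent.H3.Md

open Pool.Agent.H3.Frg Pool.Agent.H3.Frg2 Pool.Agent.H1.FX

variable {W : Type}

theorem ind0 {p : MF W → Prop} (hv : ∀ x, p (MF.var x)) (hn : ∀ A, p A → p (MF.neg A))
    (hi : ∀ A B, p A → p B → p (MF.imp A B)) (hm : ∀ q i n l, p (MF.mod q i n l)) : ∀ A, p A
  | MF.var x => hv x
  | MF.neg A => hn A (ind0 hv hn hi hm A)
  | MF.imp A B => hi A B (ind0 hv hn hi hm A) (ind0 hv hn hi hm B)
  | MF.mod q i n l => hm q i n l

/-- replace the outermost gates by constants -/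
def sb (v0 : W) (b : MF W → Bool) : MF W → Fm W
  | MF.var x => Fm.var x
  | MF.neg A => Fm.neg (sb v0 b A)
  | MF.imp A B => Fm.imp (sb v0 b A) (sb v0 b B)
  | MF.mod q i n l => cst v0 (b (MF.mod q i n l))

/-- is it the constant `true` -/
def isT : Fm W → Bool
  | Fm.imp _ _ => true
  | _ => false

theorem isT_cst (v0 : W) (b : Bool) : isT (cst v0 b) = b := by
  cases b <;> rfl

/-- value of a formula with a given translation -/
def vl (lbl : Fm W → Bool) : MF W → Fm W → Bool
  | MF.mod _ _ _ _, Z => isT Z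
  | _, Z => lbl Z

/-- the translation -/
def tr (lbl : Fm W → Bool) (v0 : W) : MF W → Fm W
  | MF.var x => Fm.var x
  | MF.neg A => Fm.neg (tr lbl v0 A)
  | MF.imp A B => Fm.imp (tr lbl v0 A) (tr lbl v0 B)
  | MF.mod q i _ l => cst v0 (decide
      ((List.ofFn fun j => vl lbl (l j) (tr lbl v0 (l j))).countP (fun b => b) % q = i % q))

/-- the value of a formula -/
def ev (lbl : Fm W → Bool) (v0 : W) (A : MF W) : Bool := vl lbl A (tr lbl v0 A)

theorem ev_mod (lbl : Fm W → Bool) (v0 : W) (q i n : ℕ) (l : Fin n → MF W) :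
    ev lbl v0 (MF.mod q i n l) = decide ((List.ofFn l).countP (ev lbl v0) % q = i % q) := by
  show isT (tr lbl v0 (MF.mod q i n l)) = _
  rw [tr, isT_cst]
  have h1 : (List.ofFn fun j => vl lbl (l j) (tr lbl v0 (l j)))
      = (List.ofFn l).map (ev lbl v0) := by
    rw [List.map_ofFn]
    rfl
  rw [h1, List.countP_map]
  rfl

theorem ev_good (lbl : Fm W → Bool) (v0 : W) : Good (ev lbl v0) := ev_mod lbl v0

theorem tr_eq (lbl : Fm W → Bool) (v0 : W) (A : MF W) :
    tr lbl v0 A = sb v0 (ev lbl v0) A := by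
  induction A using ind0 with
  | hv x => rw [tr]; rfl
  | hn A ih => rw [tr, ih]; rfl
  | hi A B ih1 ih2 => rw [tr, ih1, ih2]; rfl
  | hm q i n l =>
    have h := ev_mod lbl v0 q i n l
    rw [sb, h]
    rw [tr]
    have h1 : (List.ofFn fun j => vl lbl (l j) (tr lbl v0 (l j)))
        = (List.ofFn l).map (ev lbl v0) := by
      rw [List.map_ofFn]
      rfl
    rw [h1, List.countP_map]
    rfl

/-- not a gate -/
def NG : MF W → Prop
  | MF.mod _ _ _ _ => False
  | _ => True

theorem ev_ng (lbl : Fm W → Bool) (v0 : W) {A : MF W} (hA : NG A) :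
    ev lbl v0 A = lbl (sb v0 (ev lbl v0) A) := by
  rw [← tr_eq]
  cases A with
  | var x => rfl
  | neg A => rfl
  | imp A B => rfl
  | mod q i n l => exact absurd hA (by simp [NG])

theorem sb_congr (v0 : W) {b b' : MF W → Bool} (A : MF W) :
    (∀ M ∈ gates A, b M = b' M) → sb v0 b A = sb v0 b' A := by
  induction A using ind0 with
  | hv x => intro _; rfl
  | hn A ih => intro h; rw [sb, sb, ih h]
  | hi A B ih1 ih2 =>
    intro h
    rw [sb, sb, ih1 fun M hM => h M (by simp [gates, hM]),
      ih2 fun M hM => h M (by simp [gates, hM])]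
  | hm q i n l => intro h; rw [sb, sb, h _ (by simp [gates])]

theorem sb_ofFm (v0 : W) (b : MF W → Bool) (A : Fm W) : sb v0 b (ofFm A) = A := by
  induction A with
  | var x => rfl
  | neg A ih => rw [ofFm, sb, ih]
  | imp A B ih1 ih2 => rw [ofFm, sb, ih1, ih2]

theorem gates_ofFm (A : Fm W) : gates (ofFm A) = [] := by
  induction A with
  | var x => rfl
  | neg A ih => rw [ofFm, gates, ih]
  | imp A B ih1 ih2 => rw [ofFm, gates, ih1, ih2]; rfl

theorem NG_ofFm (A : Fm W) : NG (ofFm A) := by
  cases A <;> simp [ofFm, NG]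

theorem sb_inst (v0 : W) (b : MF W → Bool) (σ : ℕ → MF W) (ψ : Fm ℕ) :
    sb v0 b (inst σ ψ) = ψ.bind (fun i => sb v0 b (σ i)) := by
  induction ψ with
  | var i => rfl
  | neg A ih => rw [inst, sb, Fm.bind, ih]
  | imp A B ih1 ih2 => rw [inst, sb, Fm.bind, ih1, ih2]

/-- every gate is a gate -/
theorem gates_mod {A M : MF W} (h : M ∈ gates A) : ∃ q i n l, M = MF.mod q i n l := by
  induction A using ind0 with
  | hv x => simp [gates] at h
  | hn A ih => exact ih h
  | hi A B ih1 ih2 =>
    rw [gates, List.mem_append] at h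
    exact h.elim ih1 ih2
  | hm q i n l =>
    rw [gates, List.mem_singleton] at h
    exact ⟨q, i, n, l, h⟩

end Pool.Agent.H3.Md
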