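import Mathlib
import Pool.Agent.H3.Alg2.Phi
import Pool.Agent.H3.Md.Ev

set_option autoImplicit false
set_option linter.unusedSectionVars false

/-!
# Relations between the labels of a list of formulas
-/

namespace Pool.Agent.H3.Md

open Finset Pool.Agent.H3.Frg Pool.Agent.H3.Frg2 Pool.Agent.H3.Ac Pool.Agent.H3.Wd
  Pool.Agent.H3.Alg Pool.Agent.H3.Alg2 Pool.Agent.H1.FX

variable {W : Type}
variable {E U : Type} [Fintype E] [DecidableEq E] [Fintype U] [DecidableEq U]
variable {src tgt : E → U} {u0 : U} {K : Type} [Field K]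
  {val : Fm W → Finset (Sym2 (VH E)) → Option Bool} {S Ax : Set (Fm W)} {d w : ℕ}

/-- relations between the values of a list hold for the labels, up to a pseudo-zero function -/
theorem pkn (h2 : (2 : K) ≠ 0) (hGH : GH src tgt d w) (hW : ∀ A ∈ S, Val w (8 * w) (val A))
    (l : List (Fm W)) (hl : ∀ A ∈ l, A ∈ S) (G : (Fm W → Bool) → K)
    (hG : ∀ x y, (∀ A ∈ l, x A = y A) → G x = G y)
    (h0 : ∀ x : Fm W → Bool, ∀ M, IsM M → (∀ A ∈ l, val A M = some (x A)) → G x = 0)
    {k : ℕ} (hk : L1 w * (2 * l.length + 1) + k + 280 ≤ d) :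
    KZ src tgt d (sgn K src tgt u0) k (fun a => G (lb src tgt u0 val w a)) := by
  have e1 : L1 w * (2 * l.length + 1) = 2 * (L1 w * l.length) + L1 w := by ring
  refine loc_zero h2 hGH.exp sgn_mul_self hGH.deg (YL_SC l) (loc_comp l G hG)
    (L := L1 w * l.length) (fun a => inc_YL hGH l a) (by omega) ?_
  intro a hsat
  have hev : Ev src tgt u0 a (YL src tgt u0 val w l a) := fun u hu =>
    (sat_iff h2 hGH.loop a u).1 (hsat u hu)
  obtain ⟨M, hM, hv⟩ := lab_list hW l hl (fun A hA => YL_sub l A hA a) hev (by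
    have h1 := inc_YL (u0 := u0) (val := val) hGH l a
    have h3 : Fintype.card (VH E) = Fintype.card E * 2 + 1 := by
      simp [VH]
    have h4 := d_lt_card hGH.exp
    have h7 : 10 * w ≤ L1 w := by
      unfold L1
      nlinarith [Nat.zero_le w]
    have h5 : w * l.length ≤ L1 w * l.length := Nat.mul_le_mul_right _ (by omega)
    rw [h3]
    omega)
  exact h0 _ M hM hv

/-- values of the constants -/
theorem cst_val2 {V : Type} [Fintype V] [DecidableEq V]
    {val : Fm W → Finset (Sym2 V) → Option Bool} {r : ℕ}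
    (hval : ∀ A ∈ S, Val w r (val A)) (hcoh : Coh2 val S) {v0 : W} (hv : Fm.var v0 ∈ S)
    (ht : cst v0 true ∈ S) (hf : cst v0 false ∈ S)
    (hroom : 2 * (w + w * 2) + r ≤ Fintype.card V)
    {M : Finset (Sym2 V)} (hM : IsM M) {c d : Bool} (h : val (cst v0 c) M = some d) : d = c := by
  have hmem : cst v0 c ∈ S := by
    cases c
    · exact hf
    · exact ht
  obtain ⟨M', h3, h4, h5⟩ := snd_wit hval hmem hM h
    [Fm.var v0, Fm.imp (Fm.var v0) (Fm.var v0)]
    (by
      intro A hA
      simp only [List.mem_cons, List.not_mem_nil, or_false] at hA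
      rcases hA with rfl | rfl
      · exact hv
      · exact ht) hroom
  obtain ⟨a, ha⟩ := Option.ne_none_iff_exists'.1 (h5 (Fm.var v0) (by simp))
  obtain ⟨e, he⟩ := Option.ne_none_iff_exists'.1
    (h5 (Fm.imp (Fm.var v0) (Fm.var v0)) (by simp))
  have h6 := hcoh.imp _ _ hv hv ht M' h3 _ _ _ ha ha he
  have h7 : e = true := by cases a <;> simpa using h6
  cases c
  · have h8 := hcoh.neg _ ht hf M' h3 _ _ he h4
    rw [h8, h7]
    rfl
  · have h8 : val (Fm.imp (Fm.var v0) (Fm.var v0)) M' = some d := h4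
    rw [he, h7] at h8
    exact (Option.some.inj h8).symm

/-- at a matching where all subformulas of an instance have values, the values respect the scheme -/
theorem bind_val {V : Type} [Fintype V] [DecidableEq V]
    {val : Fm W → Finset (Sym2 V) → Option Bool} (hcoh : Coh2 val S) {M : Finset (Sym2 V)}
    (hM : IsM M) (x : Fm W → Bool) (ρ : ℕ → Fm W) (ψ : Fm ℕ) :
    (∀ χ ∈ ψ.subs, χ.bind ρ ∈ S ∧ val (χ.bind ρ) M = some (x (χ.bind ρ))) →
      x (ψ.bind ρ) = ψ.eval fun i => x (ρ i) := by
  induction ψ with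
  | var i => intro _; rfl
  | neg A ih =>
    intro h
    have hself : A ∈ A.subs := by cases A <;> simp [Fm.subs]
    have h1 := h (Fm.neg A) (by simp [Fm.subs])
    have h2 := h A (by simp [Fm.subs, hself])
    have h3 := ih fun χ hχ => h χ (by simp [Fm.subs, hχ])
    have h4 := hcoh.neg _ h2.1 h1.1 M hM _ _ h2.2 h1.2
    rw [h4, h3]
    rfl
  | imp A B ihA ihB =>
    intro h
    have hselfA : A ∈ A.subs := by cases A <;> simp [Fm.subs]
    have hselfB : B ∈ B.subs := by cases B <;> simp [Fm.subs]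
    have h1 := h (Fm.imp A B) (by simp [Fm.subs])
    have h2 := h A (by simp [Fm.subs, hselfA])
    have h2' := h B (by simp [Fm.subs, hselfB])
    have h3 := ihA fun χ hχ => h χ (by simp [Fm.subs, hχ])
    have h3' := ihB fun χ hχ => h χ (by simp [Fm.subs, hχ])
    have h4 := hcoh.imp _ _ h2.1 h2'.1 h1.1 M hM _ _ _ h2.2 h2'.2 h1.2
    rw [h4, h3, h3']
    rfl

/-- the truth value depends on the variables of the formula -/
theorem eval_congr {y y' : ℕ → Bool} (ψ : Fm ℕ) :
    (∀ i, Fm.var i ∈ ψ.subs → y i = y' i) → ψ.eval y = ψ.eval y' := by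
  induction ψ with
  | var i => intro h; exact h i (by simp [Fm.subs])
  | neg A ih => intro h; rw [Fm.eval, Fm.eval, ih fun i hi => h i (by simp [Fm.subs, hi])]
  | imp A B ihA ihB =>
    intro h
    rw [Fm.eval, Fm.eval, ihA fun i hi => h i (by simp [Fm.subs, hi]),
      ihB fun i hi => h i (by simp [Fm.subs, hi])]

end Pool.Agent.H3.Md
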