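import Mathlib
import Pool.Agent.H3.Md.Exp
import Pool.Agent.H3.Md.Pkn

set_option autoImplicit false
set_option linter.unusedSectionVars false

/-!
# Soundness of derivations with counting gates in the pseudo-model
-/

namespace Pool.Agent.H3.Md

open Finset Pool.Agent.H3.Frg Pool.Agent.H3.Frg2 Pool.Agent.H3.Ac Pool.Agent.H3.Wd
  Pool.Agent.H3.Alg Pool.Agent.H3.Alg2 Pool.Agent.H1.FX

variable {W : Type}
variable {E U : Type} [Fintype E] [DecidableEq E] [Fintype U] [DecidableEq U]
variable {src tgt : E → U} {u0 : U} {K : Type} [Field K]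
  {val : Fm W → Finset (Sym2 (VH E)) → Option Bool} {S Ax : Set (Fm W)} {d w : ℕ}

/-- the values of the formulas -/
noncomputable def ea (src tgt : E → U) (u0 : U)
    (val : Fm W → Finset (Sym2 (VH E)) → Option Bool) (w : ℕ) (v0 : W) (a : E → Bool) :
    MF W → Bool :=
  ev (lb src tgt u0 val w a) v0

/-- value of a metavariable -/
def vb (b : MF W → Bool) : MF W → Bool → Bool
  | MF.mod q i n l, _ => b (MF.mod q i n l)
  | _, y => y

theorem vb_ea (v0 : W) (a : E → Bool) (X : MF W) :
    vb (ea src tgt u0 val w v0 a) X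
      (lb src tgt u0 val w a (sb v0 (ea src tgt u0 val w v0 a) X))
      = ea src tgt u0 val w v0 a X := by
  cases X with
  | var x => exact (ev_ng (lb src tgt u0 val w a) v0 (A := MF.var x) (by simp [NG])).symm
  | neg A => exact (ev_ng (lb src tgt u0 val w a) v0 (A := MF.neg A) (by simp [NG])).symm
  | imp A B => exact (ev_ng (lb src tgt u0 val w a) v0 (A := MF.imp A B) (by simp [NG])).symm
  | mod q i n l => rfl

theorem gates_inst (σ : ℕ → MF W) (ψ : Fm ℕ) {i : ℕ} {M : MF W} (hM : M ∈ gates (σ i)) :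
    Fm.var i ∈ ψ.subs → M ∈ gates (inst σ ψ) := by
  induction ψ with
  | var j =>
    intro h
    simp only [Fm.subs, List.mem_singleton] at h
    rw [Fm.var.inj h] at hM
    exact hM
  | neg A ih =>
    intro h
    simp only [Fm.subs, List.mem_cons] at h
    rcases h with h | h
    · exact absurd h (by simp)
    · exact ih h
  | imp A B ihA ihB =>
    intro h
    simp only [Fm.subs, List.mem_cons, List.mem_append] at h
    rw [inst, gates, List.mem_append]
    rcases h with h | h | h
    · exact absurd h (by simp)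
    · exact Or.inl (ihA h)
    · exact Or.inr (ihB h)

/-- the values of an instance of a scheme respect the scheme, up to a pseudo-zero function -/
theorem loc_scheme (h2 : (2 : K) ≠ 0) (hGH : GH src tgt d w) (hW : World2 S Ax w (VH E) val)
    {v0 : W} (hv : Fm.var v0 ∈ S) (ht : cst v0 true ∈ S) (hf : cst v0 false ∈ S)
    {F : Set (MF W)} (hFS : ∀ b, ∀ A ∈ F, sb v0 b A ∈ S) (ψ : Fm ℕ) (σ : ℕ → MF W)
    (hng : NG (inst σ ψ)) (hvis : ∀ χ ∈ ψ.subs, inst σ χ ∈ F) (Γ : Finset (MF W))
    (hΓ : ∀ M ∈ gates (inst σ ψ), M ∈ Γ) {D k : ℕ}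
    (hD : ∀ M ∈ Γ, KDg (fun a => rb K (ea src tgt u0 val w v0 a M)) D)
    (hk : L1 w * (2 * ψ.len + 1) + (k + Γ.card * D) + 280 ≤ d) :
    KZ src tgt d (sgn K src tgt u0) k (fun a => rb K (ea src tgt u0 val w v0 a (inst σ ψ))
      - rb K (ψ.eval fun i => ea src tgt u0 val w v0 a (σ i))) := by
  obtain ⟨H, hH⟩ : ∃ H : (MF W → Bool) → (E → Bool) → K, H = fun b a =>
      rb K (lb src tgt u0 val w a (sb v0 b (inst σ ψ)))
        - rb K (ψ.eval fun i => vb b (σ i) (lb src tgt u0 val w a (sb v0 b (σ i)))) := ⟨_, rfl⟩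
  have h1 : (fun a => rb K (ea src tgt u0 val w v0 a (inst σ ψ))
      - rb K (ψ.eval fun i => ea src tgt u0 val w v0 a (σ i)))
      = fun a => H (ea src tgt u0 val w v0 a) a := by
    funext a
    rw [hH]
    have e1 : ea src tgt u0 val w v0 a (inst σ ψ)
        = lb src tgt u0 val w a (sb v0 (ea src tgt u0 val w v0 a) (inst σ ψ)) :=
      ev_ng _ v0 hng
    simp only [vb_ea]
    rw [← e1]
  rw [h1]
  have hvar : ∀ i, Fm.var i ∈ ψ.subs → ∀ M ∈ gates (σ i), M ∈ Γ := fun i hi M hM =>
    hΓ M (gates_inst σ ψ hM hi)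
  refine expand_kz h2 Γ _ hD H ?_ ?_
  · intro b b' hb
    funext a
    rw [hH]
    simp only
    rw [sb_congr v0 (inst σ ψ) fun M hM => hb M (hΓ M hM)]
    congr 2
    refine eval_congr ψ fun i hi => ?_
    rw [sb_congr v0 (σ i) fun M hM => hb M (hvar i hi M hM)]
    have hg := hvar i hi
    cases hσ : σ i with
    | var x => rfl
    | neg A => rfl
    | imp A B => rfl
    | mod q j n l =>
      show b (MF.mod q j n l) = b' (MF.mod q j n l)
      rw [hσ] at hg
      exact hb _ (hg _ (by simp [gates]))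
  · intro b
    obtain ⟨ρ, hρ⟩ : ∃ ρ : ℕ → Fm W, ρ = fun i => sb v0 b (σ i) := ⟨_, rfl⟩
    have hρi : ∀ i, sb v0 b (σ i) = ρ i := fun i => by rw [hρ]
    have hbind : ∀ χ : Fm ℕ, sb v0 b (inst σ χ) = χ.bind ρ := fun χ => by
      rw [sb_inst, hρ]
    have hself : ψ ∈ ψ.subs := by cases ψ <;> simp [Fm.subs]
    have hHb : H b = fun a => (fun x : Fm W → Bool => rb K (x (ψ.bind ρ))
        - rb K (ψ.eval fun i => vb b (σ i) (x (ρ i)))) (lb src tgt u0 val w a) := by
      funext a
      rw [hH]
      simp only [hρi, hbind]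
    rw [hHb]
    refine pkn (u0 := u0) h2 hGH hW.vals (ψ.subs.map fun χ => χ.bind ρ) ?_
      (fun x : Fm W → Bool => rb K (x (ψ.bind ρ))
        - rb K (ψ.eval fun i => vb b (σ i) (x (ρ i)))) ?_ ?_ ?_
    · intro Z hZ
      rw [List.mem_map] at hZ
      obtain ⟨χ, hχ, rfl⟩ := hZ
      rw [← hbind]
      exact hFS b _ (hvis χ hχ)
    · intro x y hxy
      have e1 := hxy (ψ.bind ρ) (List.mem_map.2 ⟨ψ, hself, rfl⟩)
      rw [e1]
      congr 2
      refine eval_congr ψ fun i hi => ?_
      have e2 := hxy (ρ i) (List.mem_map.2 ⟨Fm.var i, hi, rfl⟩)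
      rw [e2]
    · intro x M hM hval
      have e1 := bind_val hW.coh hM x ρ ψ fun χ hχ => by
        refine ⟨?_, hval _ (List.mem_map.2 ⟨χ, hχ, rfl⟩)⟩
        rw [← hbind]
        exact hFS b _ (hvis χ hχ)
      have e2 : (ψ.eval fun i => x (ρ i)) = ψ.eval fun i => vb b (σ i) (x (ρ i)) := by
        refine eval_congr ψ fun i hi => ?_
        have e3 := hval (ρ i) (List.mem_map.2 ⟨Fm.var i, hi, rfl⟩)
        cases hσ : σ i with
        | var z => rfl
        | neg A => rfl
        | imp A B => rfl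
        | mod q j n l =>
          show x (ρ i) = b (MF.mod q j n l)
          rw [← hρi, hσ] at e3 ⊢
          refine cst_val2 (v0 := v0) hW.vals hW.coh hv ht hf ?_ hM (c := b (MF.mod q j n l)) e3
          have := room_cj hGH
          omega
      rw [e1, e2, sub_self]
    · rw [List.length_map, snd_len]
      exact hk

/-- degrees -/
def Dg (c w : ℕ) : ℕ → ℕ
  | 0 => L1 w
  | t + 1 => c * (c * Dg c w t) + L1 w

theorem Dg_mono (c w t : ℕ) : L1 w ≤ Dg c w t := by
  cases t with
  | zero => exact le_rfl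
  | succ t => rw [Dg]; omega

theorem gates_nil_NG {A : MF W} (h : gates A = []) : NG A := by
  cases A with
  | mod q i n l => exact absurd h (by simp [gates])
  | _ => simp [NG]

open scoped Classical in
theorem gates_finset (A : MF W) : ∃ Γ : Finset (MF W), (∀ M, M ∈ Γ ↔ M ∈ gates A) ∧
    Γ.card = {M | M ∈ gates A}.ncard := by
  refine ⟨(gates A).toFinset, fun M => List.mem_toFinset, ?_⟩
  rw [← Set.ncard_coe_finset]
  congr 1
  ext M
  simp

/-- the values of formulas of level `t` have small degree -/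
theorem ea_kdg (h2 : (2 : K) ≠ 0) (hGH : GH src tgt d w) {p : ℕ} (hp : p.Prime) [CharP K p]
    (v0 : W) {P : MF W → Prop} {D c : ℕ} (t : ℕ) : ∀ A : MF W,
    Lv P (fun q => q ≤ c ∧ ∃ e, q = p ^ e) D c t A →
      KDg (fun a => rb K (ea src tgt u0 val w v0 a A)) (Dg c w t) ∧
      ∀ M ∈ gates A, KDg (fun a => rb K (ea src tgt u0 val w v0 a M)) (Dg c w t) := by
  induction t with
  | zero =>
    intro A hA
    obtain ⟨_, h1⟩ := hA
    have hng := gates_nil_NG h1
    refine ⟨?_, fun M hM => by rw [h1] at hM; exact absurd hM (List.not_mem_nil)⟩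
    have e1 : (fun a => rb K (ea src tgt u0 val w v0 a A))
        = fun a => rb K (lb src tgt u0 val w a (sb v0 (fun _ => false) A)) := by
      funext a
      have e2 : ea src tgt u0 val w v0 a A
          = lb src tgt u0 val w a (sb v0 (ea src tgt u0 val w v0 a) A) := ev_ng _ v0 hng
      rw [e2, sb_congr v0 (b' := fun _ => false) A fun M hM => by
        rw [h1] at hM; exact absurd hM (List.not_mem_nil)]
    rw [e1]
    exact kdg_rb hGH _
  | succ t ih =>
    intro A hA
    obtain ⟨_, h1, h3⟩ := hA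
    have hgate : ∀ M ∈ gates A,
        KDg (fun a => rb K (ea src tgt u0 val w v0 a M)) (c * Dg c w t) := by
      intro M hM
      obtain ⟨q, i, n, l, rfl⟩ := gates_mod hM
      obtain ⟨⟨h4, e, h5⟩, h6⟩ := h3 q i n l hM
      have h7 := mod_kdg (K := K) h2 (e := e) hp (List.ofFn l)
        (fun a => ea src tgt u0 val w v0 a) (fun B hB => by
          obtain ⟨j, rfl⟩ := (List.mem_ofFn' _ _).1 hB
          exact (ih _ (h6 j)).1) i
      rw [← h5] at h7
      have h8 : (fun a => rb K (ea src tgt u0 val w v0 a (MF.mod q i n l)))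
          = fun a => rb K (decide ((List.ofFn l).countP (ea src tgt u0 val w v0 a) % q
            = i % q)) := by
        funext a
        have : ea src tgt u0 val w v0 a (MF.mod q i n l)
            = decide ((List.ofFn l).countP (ea src tgt u0 val w v0 a) % q = i % q) :=
          ev_mod _ v0 q i n l
        rw [this]
      rw [h8]
      exact KDg_mono h7 (Nat.mul_le_mul_right _ h4)
    have hcc : ∀ M ∈ gates A, c * Dg c w t ≤ Dg c w (t + 1) := by
      intro M hM
      obtain ⟨q, i, n, l, rfl⟩ := gates_mod hM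
      obtain ⟨⟨h4, e, h5⟩, h6⟩ := h3 q i n l hM
      have hq : 1 ≤ q := by rw [h5]; exact Nat.one_le_pow _ _ hp.pos
      rw [Dg]
      have : 1 * (c * Dg c w t) ≤ c * (c * Dg c w t) := Nat.mul_le_mul_right _ (by omega)
      omega
    refine ⟨?_, fun M hM => KDg_mono (hgate M hM) (hcc M hM)⟩
    cases hA : A with
    | mod q i n l =>
      have hM : MF.mod q i n l ∈ gates A := by rw [hA]; simp [gates]
      exact KDg_mono (hgate _ hM) (hcc _ hM)
    | _ =>
      rw [← hA]
      have hng : NG A := by rw [hA]; simp [NG]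
      obtain ⟨Γ, hΓ, hΓc⟩ := gates_finset A
      obtain ⟨H, hH⟩ : ∃ H : (MF W → Bool) → (E → Bool) → K, H = fun b a =>
          rb K (lb src tgt u0 val w a (sb v0 b A)) := ⟨_, rfl⟩
      have e1 : (fun a => rb K (ea src tgt u0 val w v0 a A))
          = fun a => H (ea src tgt u0 val w v0 a) a := by
        funext a
        have e2 : ea src tgt u0 val w v0 a A
            = lb src tgt u0 val w a (sb v0 (ea src tgt u0 val w v0 a) A) := ev_ng _ v0 hng
        rw [hH]
        simp only
        rw [← e2]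
      rw [e1, Dg]
      refine KDg_mono (expand_kdg h2 Γ _ (D := c * Dg c w t) (D' := L1 w)
        (fun M hM => hgate M ((hΓ M).1 hM)) H ?_ ?_) ?_
      · intro b b' hb
        funext a
        rw [hH]
        simp only
        rw [sb_congr v0 A fun M hM => hb M ((hΓ M).2 hM)]
      · intro b
        rw [hH]
        exact kdg_rb hGH _
      · have : Γ.card * (c * Dg c w t) ≤ c * (c * Dg c w t) :=
          Nat.mul_le_mul_right _ (by rw [hΓc]; exact h1)
        omega

end Pool.Agent.H3.Md
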