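import Mathlib
import Pool.Agent.H3.Md.Exp

set_option autoImplicit false
set_option linter.unusedSectionVars false

/-!
# Local Boolean functions that are pseudo-equal to zero over one field are so over every field
-/

namespace Pool.Agent.H3.Md

open Finset Pool.Agent.H3.Frg Pool.Agent.H3.Ac Pool.Agent.H3.Alg

variable {E U : Type} [Fintype E] [DecidableEq E] [Fintype U] [DecidableEq U]
variable {src tgt : E → U} {u0 : U} {K K' : Type} [Field K] [Field K'] {d : ℕ}

/-- agreement with `c` on `I` -/
def ag (K : Type) [Field K] (I : Finset E) (c a : E → Bool) : K :=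
  if ∀ e ∈ I, a e = c e then 1 else 0

theorem ag_chi {I T : Finset E} (hT : T ⊆ I) (c a : E → Bool) :
    kchi K T a * ag K I c a = kchi K T c * ag K I c a := by
  unfold ag
  split_ifs with h
  · unfold kchi
    rw [Finset.prod_congr rfl fun e he => by rw [h e (hT he)]]
  · rw [mul_zero, mul_zero]

theorem ag_supp {I S : Finset E} (hS : ¬ S ⊆ I) (c : E → Bool) : kW (ag K I c) S = 0 := by
  obtain ⟨e, heS, heI⟩ := Finset.not_subset.1 hS
  unfold kW
  refine Finset.sum_involution (fun a _ => flp a e) ?_ ?_ ?_ ?_
  · intro a _
    have h1 : ag K I c (flp a e) = ag K I c a := by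
      unfold ag
      refine if_congr ⟨fun h x hx => ?_, fun h x hx => ?_⟩ rfl rfl
      · have h2 := h x hx
        unfold flp at h2
        rwa [Function.update_of_ne (by rintro rfl; exact heI hx)] at h2
      · unfold flp
        rw [Function.update_of_ne (by rintro rfl; exact heI hx)]
        exact h x hx
    rw [h1, kchi_flp heS]
    ring
  · intro a _ _ h
    have h1 := congrFun h e
    unfold flp at h1
    rw [Function.update_self] at h1
    cases hb : a e <;> rw [hb] at h1 <;> simp at h1
  · intro a _
    exact Finset.mem_univ _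
  · intro a _
    funext x
    unfold flp
    by_cases h : x = e
    · rw [h, Function.update_self, Function.update_self, Bool.not_not]
    · rw [Function.update_of_ne h, Function.update_of_ne h]

theorem ag_kdg (I : Finset E) (c : E → Bool) : KDg (ag K I c) I.card := by
  intro T hT
  refine ag_supp (fun h => ?_) c
  have := Finset.card_le_card h
  omega

theorem ag_insert {J : Finset E} {e : E} (c a : E → Bool) :
    2 * ag K (insert e J) c a
      = ag K J c a + ksg K (c e) * (kchi K {e} a * ag K J c a) := by
  have h1 : kchi K {e} a = ksg K (a e) := by simp [kchi]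
  rw [h1]
  unfold ag
  by_cases h : ∀ x ∈ J, a x = c x
  · rw [if_pos h]
    by_cases h2 : a e = c e
    · rw [if_pos, h2, mul_one, mul_one, ksg_mul_self]
      · ring
      · intro x hx
        rcases Finset.mem_insert.1 hx with rfl | hx
        · exact h2
        · exact h x hx
    · rw [if_neg]
      · cases ha : a e <;> cases hc : c e <;> simp [ksg, ha, hc] at h2 ⊢
      · intro h3
        exact h2 (h3 e (Finset.mem_insert_self _ _))
  · rw [if_neg h, if_neg]
    · ring
    · intro h3
      exact h fun x hx => h3 x (Finset.mem_insert_of_mem hx)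

/-- the parity of a set of vertices at an assignment -/
def nn (src tgt : E → U) (u0 : U) (X : Finset U) (c : E → Bool) : ℕ :=
  (∑ u ∈ X, ((bd src tgt {u}).card + if u = u0 then 1 else 0))
    + ((bd src tgt X).filter fun e => c e = true).card

theorem keps_kchi (X : Finset U) (c : E → Bool) :
    keps (sgn K src tgt u0) X * kchi K (bd src tgt X) c = (-1) ^ nn src tgt u0 X c := by
  unfold nn
  rw [pow_add]
  congr 1
  · unfold keps sgn
    rw [Finset.prod_pow_eq_pow_sum]
  · unfold kchi
    have h1 : ∀ e ∈ bd src tgt X, ksg K (c e) = if c e = true then -1 else 1 := by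
      intro e _
      unfold ksg
      rfl
    rw [Finset.prod_congr rfl h1, ← Finset.prod_filter, Finset.prod_const]

/-- a branch that violates a small constraint -/
theorem ag_zero (h2 : (2 : K) ≠ 0) (hx : Expd src tgt d) {I : Finset E} {c : E → Bool}
    {X0 : Finset U} (hX0 : X0 ∈ smallL src tgt d) (hI : bd src tgt X0 ⊆ I)
    (hodd : Odd (nn src tgt u0 X0 c)) {k : ℕ} (hk : 2 * I.card + k ≤ d) :
    KZ src tgt d (sgn K src tgt u0) k (ag K I c) := by
  intro R hR
  have h1 : KDg (fun z => kchi K R z * ag K I c z) (I.card + k) :=
    KDg_chi_mul h2 R hR (ag_kdg I c)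
  have h3 := Finset.card_le_card hI
  have h4 := kEt_shift (ε := sgn K src tgt u0) hx sgn_mul_self hX0 h1 (by omega)
  have h5 : (fun z => kchi K (bd src tgt X0) z * (kchi K R z * ag K I c z))
      = fun z => kchi K (bd src tgt X0) c * (kchi K R z * ag K I c z) := by
    funext z
    have := ag_chi (K := K) hI c z
    linear_combination (kchi K R z) * this
  rw [h5, kEt_smul] at h4
  have h6 := keps_kchi (K := K) (src := src) (tgt := tgt) (u0 := u0) X0 c
  rw [hodd.neg_one_pow] at h6
  have h7 := keps_mul_self (ε := sgn K src tgt u0) sgn_mul_self X0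
  have h8 : (2 : K) * kEt src tgt d (sgn K src tgt u0)
      (fun z => kchi K R z * ag K I c z) = 0 := by
    linear_combination (-keps (sgn K src tgt u0) X0) * h4
      + (kEt src tgt d (sgn K src tgt u0) (fun z => kchi K R z * ag K I c z)) * h6
      - (kEt src tgt d (sgn K src tgt u0) (fun z => kchi K R z * ag K I c z)) * h7
  exact (mul_eq_zero.1 h8).resolve_left h2

/-- other branches have non-zero mass -/
theorem ag_ne_zero (h2 : (2 : K) ≠ 0) (hx : Expd src tgt d) (c : E → Bool) (I : Finset E) :
    2 * I.card ≤ d → (∀ X0 ∈ smallL src tgt d, bd src tgt X0 ⊆ I →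
      ¬ Odd (nn src tgt u0 X0 c)) → kEt src tgt d (sgn K src tgt u0) (ag K I c) ≠ 0 := by
  classical
  induction I using Finset.induction_on with
  | empty =>
    intro _ _
    have h1 : ag K (∅ : Finset E) c = fun _ => 1 := by
      funext a
      simp [ag]
    rw [h1, kEt_one hx]
    exact pow_ne_zero _ h2
  | insert e J he ih =>
    intro hcard hX
    rw [Finset.card_insert_of_notMem he] at hcard
    have hJ := ih (by omega) fun X0 h0 h1 =>
      hX X0 h0 (h1.trans (Finset.subset_insert _ _))
    have h1 : (2 : K) * kEt src tgt d (sgn K src tgt u0) (ag K (insert e J) c)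
        = kEt src tgt d (sgn K src tgt u0) (ag K J c) + ksg K (c e) *
          kEt src tgt d (sgn K src tgt u0) (fun a => kchi K {e} a * ag K J c a) := by
      rw [← kEt_smul, ← kEt_smul, ← kEt_add]
      congr 1
      funext a
      exact ag_insert c a
    by_cases hex : ∃ X1 ∈ smallL src tgt d, bd src tgt X1 ⊆ insert e J ∧ e ∈ bd src tgt X1
    · obtain ⟨X1, hX1, hsub, heX⟩ := hex
      obtain ⟨T, hT⟩ : ∃ T, T = (bd src tgt X1).erase e := ⟨_, rfl⟩
      have hTJ : T ⊆ J := by
        rw [hT]
        intro x hx'
        rw [Finset.mem_erase] at hx'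
        exact (Finset.mem_insert.1 (hsub hx'.2)).resolve_left hx'.1
      have hsplit : ∀ a : E → Bool, kchi K (bd src tgt X1) a = kchi K {e} a * kchi K T a := by
        intro a
        unfold kchi
        rw [hT, Finset.prod_singleton,
          ← Finset.mul_prod_erase (bd src tgt X1) (fun i => ksg K (a i)) heX]
      have h3 : (fun a => kchi K {e} a * ag K J c a)
          = fun a => kchi K T c * (kchi K (bd src tgt X1) a * ag K J c a) := by
        funext a
        rw [hsplit]
        have e1 := ag_chi (K := K) hTJ c a
        have e2 := kchi_mul_self (K := K) T c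
        linear_combination (-(kchi K T c * kchi K {e} a)) * e1
          - (kchi K {e} a * ag K J c a) * e2
      have hcX : (bd src tgt X1).card ≤ J.card + 1 := by
        have := Finset.card_le_card hsub
        rwa [Finset.card_insert_of_notMem he] at this
      have h4 := kEt_shift (ε := sgn K src tgt u0) hx sgn_mul_self hX1 (ag_kdg (K := K) J c)
        (by omega)
      rw [h3, kEt_smul, h4] at h1
      have h5 := keps_kchi (K := K) (src := src) (tgt := tgt) (u0 := u0) X1 c
      rw [(Nat.not_odd_iff_even.1 (hX X1 hX1 hsub)).neg_one_pow, hsplit c] at h5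
      have h6 : kchi K {e} c = ksg K (c e) := by simp [kchi]
      rw [h6] at h5
      intro h0
      rw [h0, mul_zero] at h1
      have h7 : (2 : K) * kEt src tgt d (sgn K src tgt u0) (ag K J c) = 0 := by
        linear_combination (-1 : K) * h1
          - (kEt src tgt d (sgn K src tgt u0) (ag K J c)) * h5
      exact hJ ((mul_eq_zero.1 h7).resolve_left h2)
    · have h3 : kEt src tgt d (sgn K src tgt u0) (fun a => kchi K {e} a * ag K J c a) = 0 := by
        unfold kEt
        refine Finset.sum_eq_zero fun X hXs => ?_
        rw [kW_chi_mul, ag_supp, mul_zero]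
        intro h4
        refine hex ⟨X, hXs, ?_, ?_⟩
        · intro x hxX
          rw [Finset.mem_insert]
          by_cases hxe : x = e
          · exact Or.inl hxe
          · right
            refine h4 ?_
            rw [Finset.mem_symmDiff, Finset.mem_singleton]
            exact Or.inr ⟨hxX, hxe⟩
        · by_contra h5
          refine he (h4 ?_)
          rw [Finset.mem_symmDiff, Finset.mem_singleton]
          exact Or.inl ⟨rfl, h5⟩
      rw [h3, mul_zero, add_zero] at h1
      intro h0
      rw [h0, mul_zero] at h1
      exact hJ h1.symm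

/-- the transfer between fields -/
theorem kz_field (h2 : (2 : K) ≠ 0) (h2' : (2 : K') ≠ 0) (hx : Expd src tgt d)
    {Y : (E → Bool) → Finset U} {f : (E → Bool) → Bool} (hY : SC src tgt Y)
    (hf : Loc src tgt Y f) {L : ℕ} (hL : ∀ a, (inc src tgt (Y a)).card ≤ L)
    (hz : KZ src tgt d (sgn K src tgt u0) L (fun a => rb K (f a))) {k : ℕ}
    (hk : 2 * L + k ≤ d) :
    KZ src tgt d (sgn K' src tgt u0) k (fun a => rb K' (f a)) := by
  classical
  let r : Setoid (E → Bool) :=
    { r := fun a a' => ∀ e ∈ inc src tgt (Y a), a e = a' e
      iseqv := by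
        refine ⟨fun a e _ => rfl, fun {a a'} h e he => ?_, fun {a a' a''} h h' e he => ?_⟩
        · rw [hY a a' h] at he
          exact (h e he).symm
        · rw [h e he]
          refine h' e ?_
          rw [hY a a' h]
          exact he }
  let rep : (E → Bool) → (E → Bool) := fun a => (Quotient.mk r a).out
  have hrep : ∀ a, r.r (rep a) a := fun a => Quotient.exact (Quotient.out_eq _)
  have hrepeq : ∀ a a', r.r a a' → rep a = rep a' := by
    intro a a' h
    show (Quotient.mk r a).out = (Quotient.mk r a').out
    rw [Quotient.sound h]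
  have hsum : (fun a => rb K' (f a)) = fun a => ∑ c : E → Bool, (1 : K') *
      ((if rep c = c ∧ f c = true then (1 : K') else 0) * ag K' (inc src tgt (Y c)) c a) := by
    funext a
    simp only [one_mul]
    have hag : ∀ c : E → Bool, ag K' (inc src tgt (Y c)) c a = if r.r c a then 1 else 0 := by
      intro c
      unfold ag
      refine if_congr ⟨fun h e he => (h e he).symm, fun h e he => (h e he).symm⟩ rfl rfl
    rw [Finset.sum_eq_single (rep a)]
    · have h1 : rep (rep a) = rep a := hrepeq _ _ (hrep a)
      have h3 : f (rep a) = f a := by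
        have h4 := hrep a
        exact (hf (rep a) a h4).symm
      rw [hag, if_pos (hrep a), mul_one, h3]
      cases f a <;> simp [rb, h1]
    · intro c _ hc
      by_cases h1 : r.r c a
      · have h3 := hrepeq _ _ h1
        rw [if_neg, zero_mul]
        rintro ⟨h4, _⟩
        rw [h3] at h4
        exact hc h4.symm
      · rw [hag, if_neg h1, mul_zero]
    · intro h
      exact absurd (Finset.mem_univ _) h
  rw [hsum]
  refine KZ_sum _ _ _ fun c _ => ?_
  by_cases hfc : f c = true
  · refine KZ_smul _ ?_
    by_cases hex : ∃ X0 ∈ smallL src tgt d, bd src tgt X0 ⊆ inc src tgt (Y c) ∧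
        Odd (nn src tgt u0 X0 c)
    · obtain ⟨X0, h0, h1, h3⟩ := hex
      exact ag_zero h2' hx h0 h1 h3 (by have := hL c; omega)
    · exfalso
      have h1 := ag_ne_zero (K := K) (u0 := u0) h2 hx c (inc src tgt (Y c))
        (by have := hL c; omega) fun X0 h0 h3 h4 => hex ⟨X0, h0, h3, h4⟩
      refine h1 ?_
      have h3 := KZ_mul (k := 0) (D := L) h2 (KDg_mono (ag_kdg (K := K) (inc src tgt (Y c)) c)
        (hL c)) (by rw [Nat.zero_add]; exact hz)
      have h4 := h3 ∅ (by simp)
      rw [← h4]
      congr 1
      funext a
      simp only [kchi_empty, one_mul]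
      unfold ag
      split_ifs with h5
      · rw [hf c a fun e he => (h5 e he).symm, hfc]
        simp [rb]
      · rw [zero_mul]
  · intro R _
    have h1 : (fun z => kchi K' R z * ((if rep c = c ∧ f c = true then (1 : K') else 0) *
        ag K' (inc src tgt (Y c)) c z)) = fun z => 0 * kchi K' R z := by
      funext z
      rw [if_neg fun h => hfc h.2]
      ring
    rw [h1, kEt_smul, zero_mul]

end Pool.Agent.H3.Md
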