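import Mathlib
import Pool.Agent.H3.Md.Snd
import Pool.Agent.H3.Md.Trf

set_option autoImplicit false
set_option linter.unusedSectionVars false

/-!
# No derivation of a formula that is never true
-/

namespace Pool.Agent.H3.Md

open Finset Pool.Agent.H3.Frg Pool.Agent.H3.Frg2 Pool.Agent.H3.Ac Pool.Agent.H3.Wd
  Pool.Agent.H3.Alg Pool.Agent.H3.Alg2 Pool.Agent.H1.FX

variable {W : Type}
variable {E U : Type} [Fintype E] [DecidableEq E] [Fintype U] [DecidableEq U]
variable {src tgt : E → U} {u0 : U} {K : Type} [Field K]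
  {val : Fm W → Finset (Sym2 (VH E)) → Option Bool} {S Ax : Set (Fm W)} {d w : ℕ}

theorem ea_ofFm (v0 : W) (a : E → Bool) (X : Fm W) :
    ea src tgt u0 val w v0 a (ofFm X) = lb src tgt u0 val w a X := by
  have h : ea src tgt u0 val w v0 a (ofFm X)
      = lb src tgt u0 val w a (sb v0 (ea src tgt u0 val w v0 a) (ofFm X)) :=
    ev_ng _ v0 (NG_ofFm X)
  rw [h, sb_ofFm]

/-- formulas that are never false have label `1` -/
theorem never_false (h2 : (2 : K) ≠ 0) (hGH : GH src tgt d w)
    (hW : ∀ A ∈ S, Val w (8 * w) (val A)) (v0 : W) {X : Fm W} (hX : X ∈ S)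
    (hf : ∀ M, IsM M → val X M ≠ some false) {k : ℕ} (hk : L1 w * 3 + k + 280 ≤ d) :
    KZ src tgt d (sgn K src tgt u0) k
      (fun a => 1 - rb K (ea src tgt u0 val w v0 a (ofFm X))) := by
  have h1 : (fun a => 1 - rb K (ea src tgt u0 val w v0 a (ofFm X)))
      = fun a => (fun x : Fm W → Bool => 1 - rb K (x X)) (lb src tgt u0 val w a) := by
    funext a
    rw [ea_ofFm]
  rw [h1]
  refine pkn (u0 := u0) h2 hGH hW [X] ?_ (fun x : Fm W → Bool => 1 - rb K (x X)) ?_ ?_ ?_
  · intro A hA
    rw [List.mem_singleton] at hA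
    rw [hA]
    exact hX
  · intro x y hxy
    simp only [hxy X (by simp)]
  · intro x M hM hv
    have h3 := hv X (by simp)
    have h4 := hf M hM
    rw [h3] at h4
    cases hx : x X
    · rw [hx] at h4
      exact absurd rfl h4
    · simp [rb]
  · show L1 w * (2 * 1 + 1) + k + 280 ≤ d
    omega

/-- formulas that are never true have label `0` -/
theorem never_true (h2 : (2 : K) ≠ 0) (hGH : GH src tgt d w)
    (hW : ∀ A ∈ S, Val w (8 * w) (val A)) (v0 : W) {X : Fm W} (hX : X ∈ S)
    (hf : ∀ M, IsM M → val X M ≠ some true) {k : ℕ} (hk : L1 w * 3 + k + 280 ≤ d) :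
    KZ src tgt d (sgn K src tgt u0) k
      (fun a => rb K (ea src tgt u0 val w v0 a (ofFm X))) := by
  have h1 : (fun a => rb K (ea src tgt u0 val w v0 a (ofFm X)))
      = fun a => (fun x : Fm W → Bool => rb K (x X)) (lb src tgt u0 val w a) := by
    funext a
    rw [ea_ofFm]
  rw [h1]
  refine pkn (u0 := u0) h2 hGH hW [X] ?_ (fun x : Fm W → Bool => rb K (x X)) ?_ ?_ ?_
  · intro A hA
    rw [List.mem_singleton] at hA
    rw [hA]
    exact hX
  · intro x y hxy
    simp only [hxy X (by simp)]
  · intro x M hM hv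
    have h3 := hv X (by simp)
    have h4 := hf M hM
    rw [h3] at h4
    cases hx : x X
    · simp [rb]
    · rw [hx] at h4
      exact absurd rfl h4
  · show L1 w * (2 * 1 + 1) + k + 280 ≤ d
    omega

/-- formulas whose gates are trivial have local values, which do not depend on the field -/
theorem kz_line {K' : Type} [Field K'] (h2 : (2 : K) ≠ 0) (h2' : (2 : K') ≠ 0)
    (hGH : GH src tgt d w) {v0 : W} {A : MF W} (hA : ∀ M ∈ gates A, ∃ i n l, M = MF.mod 1 i n l)
    {k k' : ℕ} (hk : L1 w ≤ k) (hk' : 2 * L1 w + k' ≤ d)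
    (hz : KZ src tgt d (sgn K src tgt u0) k
      (fun a => 1 - rb K (ea src tgt u0 val w v0 a A))) :
    KZ src tgt d (sgn K' src tgt u0) k'
      (fun a => 1 - rb K' (ea src tgt u0 val w v0 a A)) := by
  have hgate : ∀ (a : E → Bool) (i n : ℕ) (l : Fin n → MF W),
      ea src tgt u0 val w v0 a (MF.mod 1 i n l) = true := by
    intro a i n l
    have h : ea src tgt u0 val w v0 a (MF.mod 1 i n l)
        = decide ((List.ofFn l).countP (ea src tgt u0 val w v0 a) % 1 = i % 1) :=
      ev_mod _ v0 1 i n l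
    rw [h, Nat.mod_one, Nat.mod_one]
    rfl
  obtain ⟨f, hf⟩ : ∃ f : (E → Bool) → Bool, f = fun a => !(ea src tgt u0 val w v0 a A) :=
    ⟨_, rfl⟩
  have hrb : ∀ (F : Type) [Field F], (fun a => 1 - rb F (ea src tgt u0 val w v0 a A))
      = fun a => rb F (f a) := by
    intro F _
    funext a
    rw [hf]
    show 1 - rb F (ea src tgt u0 val w v0 a A) = rb F (!(ea src tgt u0 val w v0 a A))
    cases ea src tgt u0 val w v0 a A <;> simp [rb]
  rw [hrb K] at hz
  rw [hrb K']
  have hloc : ∃ Y : (E → Bool) → Finset U, SC src tgt Y ∧ Loc src tgt Y f ∧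
      ∀ a, (inc src tgt (Y a)).card ≤ L1 w := by
    by_cases hng : NG A
    · obtain ⟨Z, hZ⟩ : ∃ Z, Z = sb v0 (fun _ => true) A := ⟨_, rfl⟩
      have h1 : ∀ a, ea src tgt u0 val w v0 a A = lb src tgt u0 val w a Z := by
        intro a
        have h3 : ea src tgt u0 val w v0 a A
            = lb src tgt u0 val w a (sb v0 (ea src tgt u0 val w v0 a) A) := ev_ng _ v0 hng
        rw [h3, hZ, sb_congr v0 (b' := fun _ => true) A fun M hM => by
          obtain ⟨i, n, l, rfl⟩ := hA M hM
          exact hgate a i n l]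
      refine ⟨YL src tgt u0 val w [Z], YL_SC _, ?_, fun a => ?_⟩
      · have h3 := loc_comp (src := src) (tgt := tgt) (u0 := u0) (val := val) (w := w) [Z]
          (fun x => !(x Z)) (fun x y h => by rw [h Z (by simp)])
        rw [hf]
        intro a a' h
        show (!(ea src tgt u0 val w v0 a' A)) = !(ea src tgt u0 val w v0 a A)
        rw [h1, h1]
        exact h3 a a' h
      · have h3 := inc_YL (u0 := u0) (val := val) hGH [Z] a
        rwa [List.length_singleton, mul_one] at h3
    · refine ⟨fun _ => ∅, fun _ _ _ => rfl, ?_, fun a => ?_⟩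
      · intro a a' _
        rw [hf]
        cases A with
        | mod q i n l =>
          obtain ⟨i', n', l', h⟩ := hA (MF.mod q i n l) (by simp [gates])
          rw [h]
          show (!(ea src tgt u0 val w v0 a' (MF.mod 1 i' n' l')))
            = !(ea src tgt u0 val w v0 a (MF.mod 1 i' n' l'))
          rw [hgate, hgate]
        | var x => exact absurd (show NG (MF.var x) by simp [NG]) hng
        | neg B => exact absurd (show NG (MF.neg B) by simp [NG]) hng
        | imp B C => exact absurd (show NG (MF.imp B C) by simp [NG]) hng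
      · simp [inc]
  obtain ⟨Y, y1, y2, y3⟩ := hloc
  exact kz_field h2 h2' hGH.exp y1 y2 y3 (KZ_mono hz hk) hk'

/-- there is no derivation of a formula that is never true; the gates of one formula count modulo
powers of one prime, different formulas may use different primes -/
theorem no_mder (u0 : U) (hGH : GH src tgt d w) (hW : World2 S Ax w (VH E) val)
    {v0 : W} (hv : Fm.var v0 ∈ S) (ht : cst v0 true ∈ S) (hf : cst v0 false ∈ S)
    {F : Set (MF W)} (hFS : ∀ b, ∀ A ∈ F, sb v0 b A ∈ S) {ℓ c Dt : ℕ} {Hyp : Set (MF W)}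
    {L : ℕ} (pf : Fin L → MF W) (hder : MDer ℓ Hyp pf) (hpf : ∀ i, pf i ∈ F)
    (hvis : ∀ (ψ : Fm ℕ) (σ : ℕ → MF W), ψ.len ≤ ℓ → ∀ i, pf i = inst σ ψ →
      ∀ χ ∈ ψ.subs, inst σ χ ∈ F)
    (Rp : ℕ → MF W → Prop) (hR : ∀ A ∈ F, ∃ p : ℕ, p.Prime ∧ p ≠ 2 ∧ Rp p A)
    (hRi : ∀ p A B, MF.imp A B ∈ F → A ∈ F → B ∈ F → Rp p (MF.imp A B) → Rp p A ∧ Rp p B)
    (hRR : ∀ p p' : ℕ, p.Prime → p'.Prime → p ≠ p' → ∀ B ∈ F, Rp p B → Rp p' B →
      ∀ M ∈ gates B, ∃ i n l, M = MF.mod 1 i n l)
    (hdeg : ∀ (p : ℕ) [Fact p.Prime], p ≠ 2 → ∀ A ∈ F, Rp p A →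
      KDg (fun a => rb (ZMod p) (ea src tgt u0 val w v0 a A)) Dt)
    (hgd : ∀ (p : ℕ) [Fact p.Prime], p ≠ 2 → ∀ A ∈ F, Rp p A → ∀ M ∈ gates A,
      KDg (fun a => rb (ZMod p) (ea src tgt u0 val w v0 a M)) Dt)
    (hgc : ∀ A ∈ F, {M | M ∈ gates A}.ncard ≤ c)
    (hHyp : ∀ A ∈ Hyp, A ∈ F → ∃ X ∈ S, X ∈ Ax ∧ A = ofFm X)
    (hroom : L1 w * (2 * (ℓ + 3) + 1) + (c + 4) * Dt + 280 ≤ d) (hDt : L1 w ≤ Dt)
    {T : Fm W} (hT : T ∈ S) (hTt : ∀ M, IsM M → val T M ≠ some true) (i0 : Fin L)
    (hi0 : pf i0 = ofFm T) : False := by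
  have hr1 : (c + 4) * Dt = c * Dt + 4 * Dt := by ring
  have hr2 : L1 w * (2 * (ℓ + 3) + 1) = 2 * (L1 w * ℓ) + L1 w * 7 := by ring
  have h2p : ∀ (p : ℕ) [Fact p.Prime], p ≠ 2 → (2 : ZMod p) ≠ 0 := by
    intro p hp hp2 h
    have h1 : ((2 : ℕ) : ZMod p) = 0 := by exact_mod_cast h
    rw [ZMod.natCast_eq_zero_iff] at h1
    exact hp2 ((Nat.prime_dvd_prime_iff_eq hp.out Nat.prime_two).1 h1)
  -- the local lemma for formulas of `F`
  have hloc : ∀ (p : ℕ) [Fact p.Prime], p ≠ 2 → ∀ (ψ : Fm ℕ) (σ : ℕ → MF W), ψ.len ≤ ℓ + 3 →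
      NG (inst σ ψ) → (∀ χ ∈ ψ.subs, inst σ χ ∈ F) → Rp p (inst σ ψ) →
      KZ src tgt d (sgn (ZMod p) src tgt u0) Dt (fun a =>
        rb (ZMod p) (ea src tgt u0 val w v0 a (inst σ ψ))
          - rb (ZMod p) (ψ.eval fun i => ea src tgt u0 val w v0 a (σ i))) := by
    intro p _ hp2 ψ σ hlen hng hvs hRp
    have hself : ψ ∈ ψ.subs := by cases ψ <;> simp [Fm.subs]
    obtain ⟨Γ, hΓ, hΓc⟩ := gates_finset (inst σ ψ)
    have hAF := hvs ψ hself
    refine loc_scheme (u0 := u0) (D := Dt) (h2p p hp2) hGH hW hv ht hf hFS ψ σ hng hvs Γ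
      (fun M hM => (hΓ M).2 hM) (fun M hM => hgd p hp2 _ hAF hRp M ((hΓ M).1 hM)) ?_
    have h3 : Γ.card * Dt ≤ c * Dt := Nat.mul_le_mul_right _ (by rw [hΓc]; exact hgc _ hAF)
    have h4 : L1 w * (2 * ψ.len + 1) ≤ L1 w * (2 * (ℓ + 3) + 1) :=
      Nat.mul_le_mul_left _ (by omega)
    omega
  have hinv : ∀ n : ℕ, ∀ i : Fin L, (i : ℕ) = n → ∀ (p : ℕ) [Fact p.Prime], p ≠ 2 →
      Rp p (pf i) → KZ src tgt d (sgn (ZMod p) src tgt u0) Dt
      (fun a => 1 - rb (ZMod p) (ea src tgt u0 val w v0 a (pf i))) := by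
    intro n
    induction n using Nat.strong_induction_on with
    | _ n ih =>
      intro i hi p hp hp2 hRp
      rcases hder i with h | ⟨ψ, σ, hlen, hψ, hsem⟩ | ⟨j, hj, k, hk, h⟩
      · obtain ⟨X, hXS, hXA, hX⟩ := hHyp _ h (hpf i)
        rw [hX]
        exact never_false (h2p p hp2) hGH hW.vals v0 hXS (hW.ax X hXS hXA) (by omega)
      · have hs : ∀ a, ψ.eval (fun j => ea src tgt u0 val w v0 a (σ j)) = true := fun a =>
          hsem _ (ev_good _ v0)
        by_cases hng : NG (inst σ ψ)
        · have h3 := hloc p hp2 ψ σ (by omega) hng (hvis ψ σ hlen i hψ) (by rw [← hψ]; exact hRp)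
          have h4 := KZ_smul (-1) h3
          have h5 : (fun a => 1 - rb (ZMod p) (ea src tgt u0 val w v0 a (pf i)))
              = fun a => (-1) * (rb (ZMod p) (ea src tgt u0 val w v0 a (inst σ ψ))
                - rb (ZMod p) (ψ.eval fun i => ea src tgt u0 val w v0 a (σ i))) := by
            funext a
            rw [hψ, hs a]
            simp [rb]
          rw [h5]
          exact h4
        · -- then `ψ` is a variable and the line is a gate
          cases ψ with
          | var j =>
            have h3 : (fun a => 1 - rb (ZMod p) (ea src tgt u0 val w v0 a (pf i)))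
                = fun a => (0 : ZMod p) * (1 - rb (ZMod p) (ea src tgt u0 val w v0 a (pf i))) := by
              funext a
              have h4 : ea src tgt u0 val w v0 a (σ j) = true := hs a
              rw [hψ]
              show 1 - rb (ZMod p) (ea src tgt u0 val w v0 a (σ j))
                = 0 * (1 - rb (ZMod p) (ea src tgt u0 val w v0 a (σ j)))
              rw [h4]
              simp [rb]
            rw [h3]
            intro R _
            have h5 : (fun z : E → Bool => kchi (ZMod p) R z *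
                ((0 : ZMod p) * (1 - rb (ZMod p) (ea src tgt u0 val w v0 z (pf i)))))
                = fun z => 0 * kchi (ZMod p) R z := by
              funext z; ring
            rw [h5, kEt_smul, zero_mul]
          | neg A => exact absurd (show NG (inst σ (Fm.neg A)) by simp [inst, NG]) hng
          | imp A B => exact absurd (show NG (inst σ (Fm.imp A B)) by simp [inst, NG]) hng
      · -- modus ponens
        obtain ⟨p', hp'1, hp'2, hRk⟩ := hR _ (hpf k)
        haveI : Fact p'.Prime := ⟨hp'1⟩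
        have h2' := h2p p' hp'2
        obtain ⟨hRj, hRi'⟩ := hRi p' (pf j) (pf i) (by rw [← h]; exact hpf k) (hpf j) (hpf i)
          (by rw [← h]; exact hRk)
        have hj' := ih j (by rw [← hi]; exact hj) j rfl p' hp'2 hRj
        have hk' := ih k (by rw [← hi]; exact hk) k rfl p' hp'2 hRk
        have hmp : KZ src tgt d (sgn (ZMod p') src tgt u0) Dt
            (fun a => 1 - rb (ZMod p') (ea src tgt u0 val w v0 a (pf i))) := by
          obtain ⟨σ, hσ⟩ : ∃ σ : ℕ → MF W, σ = fun m => if m = 0 then pf j else pf i := ⟨_, rfl⟩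
          have e0 : σ 0 = pf j := by rw [hσ]; simp
          have e1 : σ 1 = pf i := by rw [hσ]; simp
          have e2 : inst σ (Fm.imp (Fm.var 0) (Fm.var 1)) = pf k := by
            rw [inst, inst, inst, e0, e1, h]
          have h3 := hloc p' hp'2 (Fm.imp (Fm.var 0) (Fm.var 1)) σ (by
            show 1 + 1 + 1 ≤ ℓ + 3
            omega) (by simp [inst, NG]) (by
            intro χ hχ
            simp only [Fm.subs, List.mem_cons, List.mem_append, List.not_mem_nil,
              or_false] at hχ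
            rcases hχ with rfl | rfl | rfl
            · rw [e2]
              exact hpf k
            · rw [inst, e0]
              exact hpf j
            · rw [inst, e1]
              exact hpf i) (by rw [e2]; exact hRk)
          rw [e2] at h3
          have hY : KDg (fun a => 1 - rb (ZMod p') (ea src tgt u0 val w v0 a (pf i))) Dt :=
            KDg_sub (KDg_mono (KDg_const 1) (Nat.zero_le _)) (hdeg p' hp'2 _ (hpf i) hRi')
          have hX : KDg (fun a => 1 - rb (ZMod p') (ea src tgt u0 val w v0 a (pf j))) Dt :=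
            KDg_sub (KDg_mono (KDg_const 1) (Nat.zero_le _)) (hdeg p' hp'2 _ (hpf j) hRj)
          have h4 : KZ src tgt d (sgn (ZMod p') src tgt u0) (Dt + Dt)
              (fun a => 1 - rb (ZMod p') (ea src tgt u0 val w v0 a (pf j))) :=
            ktransfer hGH.exp sgn_mul_self (by omega) hX hj' (by omega)
          have h5 := KZ_mul h2' hY h4
          have h6 := KZ_add (KZ_add hk' h3) h5
          have h8 : (fun a => 1 - rb (ZMod p') (ea src tgt u0 val w v0 a (pf i)))
              = fun a => (1 - rb (ZMod p') (ea src tgt u0 val w v0 a (pf k))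
                + (rb (ZMod p') (ea src tgt u0 val w v0 a (pf k))
                  - rb (ZMod p') (Fm.eval (fun m => ea src tgt u0 val w v0 a (σ m))
                      (Fm.imp (Fm.var 0) (Fm.var 1)))))
                + (1 - rb (ZMod p') (ea src tgt u0 val w v0 a (pf i)))
                  * (1 - rb (ZMod p') (ea src tgt u0 val w v0 a (pf j))) := by
            funext a
            have h7 : (Fm.eval (fun m => ea src tgt u0 val w v0 a (σ m))
                (Fm.imp (Fm.var 0) (Fm.var 1)))
                = (!(ea src tgt u0 val w v0 a (pf j)) || ea src tgt u0 val w v0 a (pf i)) := by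
              show (!(ea src tgt u0 val w v0 a (σ 0)) || ea src tgt u0 val w v0 a (σ 1)) = _
              rw [e0, e1]
            rw [h7]
            cases ea src tgt u0 val w v0 a (pf j) <;> cases ea src tgt u0 val w v0 a (pf i) <;>
              simp [rb]
          rw [h8]
          exact h6
        by_cases hpp : p = p'
        · subst hpp
          exact hmp
        · exact kz_line h2' (h2p p hp2) hGH (hRR p p' hp.out hp'1 hpp _ (hpf i) hRp hRi') hDt
            (by omega) hmp
  obtain ⟨p, hp, hp2, hRp⟩ := hR _ (hpf i0)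
  haveI : Fact p.Prime := ⟨hp⟩
  have h2 := h2p p hp2
  have h3 := hinv i0 i0 rfl p hp2 hRp
  rw [hi0] at h3
  have h4 := never_true (u0 := u0) h2 hGH hW.vals v0 hT hTt (k := Dt) (by omega)
  have h5 := KZ_add h3 h4
  refine not_KZ_one (K := ZMod p) (src := src) (tgt := tgt) (ε := sgn (ZMod p) src tgt u0) h2
    hGH.exp Dt ?_
  have h6 : (fun _ : E → Bool => (1 : ZMod p))
      = fun a => 1 - rb (ZMod p) (ea src tgt u0 val w v0 a (ofFm T))
        + rb (ZMod p) (ea src tgt u0 val w v0 a (ofFm T)) := by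
    funext a
    ring
  rw [h6]
  exact h5

end Pool.Agent.H3.Md
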