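import Mathlib
import Pool.Agent.H3.Md.Drv
import Pool.Agent.H3.Alg2.FinP

set_option autoImplicit false
set_option linter.unusedSectionVars false

/-!
# The formulas for the world
-/

namespace Pool.Agent.H3.Md

open Finset Pool.Agent.H3.Frg Pool.Agent.H3.Frg2 Pool.Agent.H3.Frg4 Pool.Agent.H3.Ac
  Pool.Agent.H3.Wd Pool.Agent.H3.Alg Pool.Agent.H3.Alg2 Pool.Agent.H1.FX

variable {W : Type}

theorem ofFm_neg {X : Fm W} {Y : MF W} (h : ofFm X = MF.neg Y) :
    ∃ X', X = Fm.neg X' ∧ Y = ofFm X' := by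
  cases X with
  | var x => exact absurd h (by simp [ofFm])
  | neg X' =>
    rw [ofFm] at h
    exact ⟨X', rfl, (MF.neg.inj h).symm⟩
  | imp A B => exact absurd h (by simp [ofFm])

theorem ofFm_imp {X : Fm W} {Y Z : MF W} (h : ofFm X = MF.imp Y Z) :
    ∃ A B, X = Fm.imp A B ∧ Y = ofFm A ∧ Z = ofFm B := by
  cases X with
  | var x => exact absurd h (by simp [ofFm])
  | neg X' => exact absurd h (by simp [ofFm])
  | imp A B =>
    rw [ofFm] at h
    obtain ⟨h1, h2⟩ := MF.imp.inj h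
    exact ⟨A, B, rfl, h1.symm, h2.symm⟩

theorem ofFm_mod {X : Fm W} {q i n : ℕ} {l : Fin n → MF W} (h : ofFm X = MF.mod q i n l) :
    False := by
  cases X <;> exact absurd h (by simp [ofFm])

/-- all parts of an instance of a short scheme are visible or close to the top of an atom -/
theorem vis_inst {G : List (Fm W)} {F : Set (MF W)}
    (hF : CloM {A | ∃ X ∈ G, A = ofFm X} F) {ℓ : ℕ} (σ : ℕ → MF W) (ψ : Fm ℕ) :
    ∀ j, j + ψ.len ≤ ℓ + 1 → (inst σ ψ ∈ F ∨ ∃ X ∈ TT G j, inst σ ψ = ofFm X) →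
      ∀ χ ∈ ψ.subs, inst σ χ ∈ F ∨ ∃ X ∈ TT G ℓ, inst σ χ = ofFm X := by
  have hlift : ∀ (A : MF W) (j : ℕ), j ≤ ℓ → (A ∈ F ∨ ∃ X ∈ TT G j, A = ofFm X) →
      (A ∈ F ∨ ∃ X ∈ TT G ℓ, A = ofFm X) := by
    intro A j hj h
    rcases h with h | ⟨X, hX, h⟩
    · exact Or.inl h
    · exact Or.inr ⟨X, TT_mono hj hX, h⟩
  induction ψ with
  | var i =>
    intro j hj h χ hχ
    simp only [Fm.subs, List.mem_singleton] at hχ
    rw [hχ]
    refine hlift _ j ?_ h
    have : (Fm.var i : Fm ℕ).len = 1 := rfl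
    omega
  | neg A ih =>
    intro j hj h χ hχ
    have hlen : (Fm.neg A).len = A.len + 1 := rfl
    have hA1 := len_pos A
    simp only [Fm.subs, List.mem_cons] at hχ
    rcases hχ with rfl | hχ
    · exact hlift _ j (by omega) h
    · refine ih (j + 1) (by omega) ?_ χ hχ
      rw [inst] at h
      rcases h with h | ⟨X, hX, h⟩
      · by_cases hG : MF.neg (inst σ A) ∈ {A | ∃ X ∈ G, A = ofFm X}
        · obtain ⟨X, hX, h1⟩ := hG
          obtain ⟨X', h2, h3⟩ := ofFm_neg h1.symm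
          rw [h2] at hX
          exact Or.inr ⟨X', TT_mono (by omega) (TT_neg (j := 0) hX), h3⟩
        · exact Or.inl (hF.1 _ h hG)
      · obtain ⟨X', h2, h3⟩ := ofFm_neg h.symm
        rw [h2] at hX
        exact Or.inr ⟨X', TT_neg hX, h3⟩
  | imp A B ihA ihB =>
    intro j hj h χ hχ
    have hlen : (Fm.imp A B).len = A.len + B.len + 1 := rfl
    have hA1 := len_pos A
    have hB1 := len_pos B
    have key : (inst σ A ∈ F ∨ ∃ X ∈ TT G (j + 1), inst σ A = ofFm X) ∧
        (inst σ B ∈ F ∨ ∃ X ∈ TT G (j + 1), inst σ B = ofFm X) := by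
      rw [inst] at h
      rcases h with h | ⟨X, hX, h⟩
      · by_cases hG : MF.imp (inst σ A) (inst σ B) ∈ {A | ∃ X ∈ G, A = ofFm X}
        · obtain ⟨X, hX, h1⟩ := hG
          obtain ⟨X1, X2, h2, h3, h4⟩ := ofFm_imp h1.symm
          rw [h2] at hX
          have h5 := TT_imp (j := 0) hX
          exact ⟨Or.inr ⟨X1, TT_mono (by omega) h5.1, h3⟩,
            Or.inr ⟨X2, TT_mono (by omega) h5.2, h4⟩⟩
        · have h5 := hF.2.1 _ _ h hG
          exact ⟨Or.inl h5.1, Or.inl h5.2⟩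
      · obtain ⟨X1, X2, h2, h3, h4⟩ := ofFm_imp h.symm
        rw [h2] at hX
        have h5 := TT_imp hX
        exact ⟨Or.inr ⟨X1, h5.1, h3⟩, Or.inr ⟨X2, h5.2, h4⟩⟩
    simp only [Fm.subs, List.mem_cons, List.mem_append] at hχ
    rcases hχ with rfl | hχ | hχ
    · exact hlift _ j (by omega) h
    · exact ihA (j + 1) (by omega) key.1 χ hχ
    · exact ihB (j + 1) (by omega) key.2 χ hχ

theorem MDep_mono {P P' : MF W → Prop} (hP : ∀ A, P A → P' A) {D : ℕ} {A : MF W}
    (h : MDep P D A) : MDep P' D A := by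
  induction h with
  | var d v => exact MDep.var _ _
  | base d A hA => exact MDep.base _ _ (hP _ hA)
  | gate d q i n l => exact MDep.gate _ _ _ _ _
  | neg d A _ ih => exact MDep.neg _ _ ih
  | imp d A B _ _ ih1 ih2 => exact MDep.imp _ _ _ ih1 ih2

theorem Lv_mono {P P' : MF W → Prop} {Q : ℕ → Prop} (hP : ∀ A, P A → P' A) {D c : ℕ} (t : ℕ) :
    ∀ {A : MF W}, Lv P Q D c t A → Lv P' Q D c t A := by
  induction t with
  | zero =>
    intro A h
    exact ⟨MDep_mono hP h.1, h.2⟩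
  | succ t ih =>
    intro A h
    refine ⟨MDep_mono hP h.1, h.2.1, fun q i n l hM => ?_⟩
    have h1 := h.2.2 q i n l hM
    exact ⟨h1.1, fun j => ih (h1.2 j)⟩

theorem Lv_ofFm {P : MF W → Prop} {Q : ℕ → Prop} {D c : ℕ} (t : ℕ) {X : Fm W}
    (hX : P (ofFm X)) : Lv P Q D c t (ofFm X) := by
  cases t with
  | zero => exact ⟨MDep.base _ _ hX, gates_ofFm X⟩
  | succ t =>
    refine ⟨MDep.base _ _ hX, ?_, fun q i n l hM => ?_⟩
    · rw [gates_ofFm]
      simp
    · rw [gates_ofFm] at hM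
      exact absurd hM (List.not_mem_nil)

theorem Lv_dep {P : MF W → Prop} {Q : ℕ → Prop} {D c t : ℕ} {A : MF W}
    (h : Lv P Q D c t A) : MDep P D A := by
  cases t with
  | zero => exact h.1
  | succ t => exact h.1

theorem Lv_card {P : MF W → Prop} {Q : ℕ → Prop} {D c t : ℕ} {A : MF W}
    (h : Lv P Q D c t A) : {M | M ∈ gates A}.ncard ≤ c := by
  cases t with
  | zero =>
    rw [h.2]
    simp
  | succ t => exact h.2.1

/-- fewer gates -/
theorem Lv_sub {P : MF W → Prop} {Q : ℕ → Prop} {D c t : ℕ} {A B : MF W}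
    (h : Lv P Q D c t A) (hB : MDep P D B) (hs : ∀ M ∈ gates B, M ∈ gates A) :
    Lv P Q D c t B := by
  cases t with
  | zero =>
    refine ⟨hB, ?_⟩
    rw [List.eq_nil_iff_forall_not_mem]
    intro M hM
    have h1 := hs M hM
    rw [h.2] at h1
    exact absurd h1 (List.not_mem_nil)
  | succ t =>
    refine ⟨hB, le_trans (Set.ncard_le_ncard (fun M hM => hs M hM) ?_) h.2.1,
      fun q i n l hM => h.2.2 q i n l (hs _ hM)⟩
    exact (gates A).finite_toSet

/-- gates of a formula that counts modulo powers of different primes are trivial -/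
theorem Lv_two {P P' : MF W → Prop} {D D' c c' t t' p p' : ℕ} (hp : p.Prime) (hp' : p'.Prime)
    (hne : p ≠ p') {B : MF W} (h : Lv P (fun q => q ≤ c ∧ ∃ e, q = p ^ e) D c t B)
    (h' : Lv P' (fun q => q ≤ c' ∧ ∃ e, q = p' ^ e) D' c' t' B) :
    ∀ M ∈ gates B, ∃ i n l, M = MF.mod 1 i n l := by
  intro M hM
  cases t with
  | zero => rw [h.2] at hM; exact absurd hM (List.not_mem_nil)
  | succ t =>
    cases t' with
    | zero => rw [h'.2] at hM; exact absurd hM (List.not_mem_nil)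
    | succ t' =>
      obtain ⟨q, i, n, l, rfl⟩ := gates_mod hM
      obtain ⟨⟨_, e, h1⟩, _⟩ := h.2.2 q i n l hM
      obtain ⟨⟨_, e', h2⟩, _⟩ := h'.2.2 q i n l hM
      have h3 : Nat.Coprime q q := by
        conv_lhs => rw [h1]
        rw [h2]
        exact Nat.Coprime.pow _ _ ((Nat.coprime_primes hp hp').2 hne)
      rw [Nat.coprime_self] at h3
      exact ⟨i, n, l, by rw [h3]⟩

/-- depth of the translation -/
theorem sb_LDep {P : MF W → Prop} {P' : Fm W → Prop} {v0 : W} (hc : ∀ c, P' (cst v0 c))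
    (b : MF W → Bool) (hP : ∀ A, P A → P' (sb v0 b A)) {D : ℕ}
    {A : MF W} (h : MDep P D A) : LDep P' D (sb v0 b A) := by
  induction h with
  | var d v => exact LDep.var _ _
  | base d A hA => exact LDep.base _ _ (hP _ hA)
  | gate d q i n l => exact LDep.base _ _ (hc _)
  | neg d A _ ih => exact LDep.neg _ _ ih
  | imp d A B _ _ ih1 ih2 => exact LDep.imp _ _ _ ih1 ih2

/-- size of the translation -/
theorem sb_len (b : MF ℕ → Bool) (A : MF ℕ) : (sb 0 b A).enc.length ≤ 9 * msz A := by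
  induction A using ind0 with
  | hv x =>
    show (Fm.var x : Fm ℕ).enc.length ≤ 9 * (Fm.var x : Fm ℕ).enc.length
    omega
  | hn A ih =>
    rw [sb, msz]
    simp only [Fm.enc, List.length_cons]
    omega
  | hi A B ih1 ih2 =>
    rw [sb, msz]
    simp only [Fm.enc, List.length_cons, List.length_append]
    omega
  | hm q i n l =>
    rw [sb, msz]
    cases b (MF.mod q i n l) <;> simp [cst, Fm.enc]

open scoped Classical in
/-- the translations of the formulas of `F` -/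
theorem exists_V0 (v0 : W) (F : Finset (MF W)) (G : Set (Fm W))
    (hF : CloM {A | ∃ X ∈ G, A = ofFm X} (F : Set (MF W))) {c : ℕ}
    (hc : ∀ A ∈ F, {M | M ∈ gates A}.ncard ≤ c) :
    ∃ V0 : Finset (Fm W), Fm.var v0 ∈ V0 ∧ cst v0 true ∈ V0 ∧ cst v0 false ∈ V0 ∧
      (∀ b, ∀ A ∈ F, sb v0 b A ∈ V0) ∧ CloOff G (V0 : Set (Fm W)) ∧
      V0.card ≤ F.card * 2 ^ c + 3 ∧
      ∀ Z ∈ V0, (∃ b, ∃ A ∈ F, Z = sb v0 b A) ∨ Z = Fm.var v0 ∨ Z = cst v0 true ∨
        Z = cst v0 false := by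
  obtain ⟨T, hT⟩ : ∃ T : Finset (Fm W), T = F.biUnion fun A => (gates A).toFinset.powerset.image
      fun B => sb v0 (fun M => decide (M ∈ B)) A := ⟨_, rfl⟩
  obtain ⟨V0, hV0⟩ : ∃ V0 : Finset (Fm W),
      V0 = T ∪ {Fm.var v0, cst v0 true, cst v0 false} := ⟨_, rfl⟩
  have hmem : ∀ Z, Z ∈ V0 ↔ (∃ A ∈ F, ∃ B ⊆ (gates A).toFinset,
      sb v0 (fun M => decide (M ∈ B)) A = Z) ∨ Z = Fm.var v0 ∨ Z = cst v0 true ∨
      Z = cst v0 false := by
    intro Z
    rw [hV0, hT, Finset.mem_union, Finset.mem_biUnion]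
    simp only [Finset.mem_image, Finset.mem_powerset, Finset.mem_insert, Finset.mem_singleton]
  have hsb : ∀ b, ∀ A ∈ F, sb v0 b A ∈ V0 := by
    intro b A hA
    rw [hmem]
    refine Or.inl ⟨A, hA, (gates A).toFinset.filter fun M => b M = true,
      Finset.filter_subset _ _, ?_⟩
    refine sb_congr v0 A fun M hM => ?_
    cases hb : b M
    · simp [hb]
    · simp [hb, hM]
  have hv : Fm.var v0 ∈ V0 := (hmem _).2 (Or.inr (Or.inl rfl))
  have ht : cst v0 true ∈ V0 := (hmem _).2 (Or.inr (Or.inr (Or.inl rfl)))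
  have hf : cst v0 false ∈ V0 := (hmem _).2 (Or.inr (Or.inr (Or.inr rfl)))
  refine ⟨V0, hv, ht, hf, hsb, ⟨?_, ?_⟩, ?_, ?_⟩
  · intro Z hZ hG
    rw [Finset.mem_coe, hmem] at hZ
    rcases hZ with ⟨A, hA, B, hB, h⟩ | h | h | h
    · cases A with
      | var x => exact absurd h (by simp [sb])
      | neg A' =>
        rw [sb] at h
        have h1 := Fm.neg.inj h
        have hA' : A' ∈ F := by
          refine hF.1 A' hA ?_
          rintro ⟨X, hX, h2⟩
          refine hG ?_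
          have h3 := sb_ofFm v0 (fun M => decide (M ∈ B)) X
          rw [← h2, sb, h1] at h3
          rw [h3]
          exact hX
        rw [← h1]
        exact hsb _ _ hA'
      | imp A1 A2 => exact absurd h (by simp [sb])
      | mod q i n l =>
        rw [sb] at h
        cases hb : decide (MF.mod q i n l ∈ B)
        · rw [hb] at h
          have h1 : Fm.neg (Fm.imp (Fm.var v0) (Fm.var v0)) = Fm.neg Z := h
          rw [← Fm.neg.inj h1]
          exact ht
        · rw [hb] at h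
          exact absurd h (by simp [cst])
    · exact absurd h (by simp)
    · exact absurd h (by simp [cst])
    · have h1 : Fm.neg Z = Fm.neg (Fm.imp (Fm.var v0) (Fm.var v0)) := h
      rw [Fm.neg.inj h1]
      exact ht
  · intro Z1 Z2 hZ hG
    rw [Finset.mem_coe, hmem] at hZ
    rcases hZ with ⟨A, hA, B, hB, h⟩ | h | h | h
    · cases A with
      | var x => exact absurd h (by simp [sb])
      | neg A' => exact absurd h (by simp [sb])
      | imp A1 A2 =>
        rw [sb] at h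
        obtain ⟨h1, h2⟩ := Fm.imp.inj h
        have hA' : A1 ∈ F ∧ A2 ∈ F := by
          refine hF.2.1 A1 A2 hA ?_
          rintro ⟨X, hX, h3⟩
          refine hG ?_
          have h4 := sb_ofFm v0 (fun M => decide (M ∈ B)) X
          rw [← h3, sb, h1, h2] at h4
          rw [h4]
          exact hX
        rw [← h1, ← h2]
        exact ⟨hsb _ _ hA'.1, hsb _ _ hA'.2⟩
      | mod q i n l =>
        rw [sb] at h
        cases hb : decide (MF.mod q i n l ∈ B)
        · rw [hb] at h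
          exact absurd h (by simp [cst])
        · rw [hb] at h
          have h1 : Fm.imp (Fm.var v0) (Fm.var v0) = Fm.imp Z1 Z2 := h
          obtain ⟨h2, h3⟩ := Fm.imp.inj h1
          rw [← h2, ← h3]
          exact ⟨hv, hv⟩
    · exact absurd h (by simp)
    · have h1 : Fm.imp Z1 Z2 = Fm.imp (Fm.var v0) (Fm.var v0) := h
      obtain ⟨h2, h3⟩ := Fm.imp.inj h1
      rw [h2, h3]
      exact ⟨hv, hv⟩
    · exact absurd h (by simp [cst])
  · rw [hV0]
    refine (Finset.card_union_le _ _).trans (Nat.add_le_add ?_ Finset.card_le_three)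
    rw [hT]
    refine Finset.card_biUnion_le_card_mul _ _ _ fun A hA => ?_
    refine Finset.card_image_le.trans ?_
    rw [Finset.card_powerset]
    refine Nat.pow_le_pow_right (by norm_num) (le_trans (le_of_eq ?_) (hc A hA))
    rw [← Set.ncard_coe_finset]
    congr 1
    ext M
    simp
  · intro Z hZ
    rcases (hmem Z).1 hZ with ⟨A, hA, B, hB, h⟩ | h
    · exact Or.inl ⟨_, A, hA, h.symm⟩
    · exact Or.inr h

/-- in a world a conjunction of axioms is never false -/
theorem never_bigAnd2 {V : Type} [Fintype V] [DecidableEq V] {w : ℕ} {S Ax : Set (Fm W)}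
    {val : Fm W → Finset (Sym2 V) → Option Bool} (hW : World2 S Ax w V val)
    {P : Fm W → Prop} (hP1 : ∀ A, P (Fm.neg A) → P A)
    (hP2 : ∀ A B, P (Fm.imp A B) → P A ∧ P B)
    (hS1 : ∀ A, P (Fm.neg A) → Fm.neg A ∈ S → A ∈ S)
    (hS2 : ∀ A B, P (Fm.imp A B) → Fm.imp A B ∈ S → A ∈ S ∧ B ∈ S)
    (hroom : 2 * (w + w * 4) + 8 * w ≤ Fintype.card V) : ∀ (d : ℕ) (C : ℕ → Fm W),
    (∀ i, C i ∈ Ax) → P (bigAnd d C) → bigAnd d C ∈ S →
      ∀ M, IsM M → val (bigAnd d C) M ≠ some false := by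
  intro d
  induction d with
  | zero => intro C hC _ h M hM; exact hW.ax _ h (hC 0) M hM
  | succ d ih =>
    intro C hC hP h M hM hb
    have p1 : P (Fm.neg (Fm.imp (bigAnd d C) (Fm.neg (bigAnd d fun i => C (2 ^ d + i))))) := hP
    have h1 : Fm.neg (Fm.imp (bigAnd d C) (Fm.neg (bigAnd d fun i => C (2 ^ d + i)))) ∈ S := h
    have p2 := hP1 _ p1
    have h2 := hS1 _ p1 h1
    have p3 := hP2 _ _ p2
    have h3 := hS2 _ _ p2 h2
    have p4 := hP1 _ p3.2
    have h4 := hS1 _ p3.2 h3.2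
    obtain ⟨M', h5, h6, h7⟩ := snd_wit hW.vals h1 hM hb
      [bigAnd d C, bigAnd d fun i => C (2 ^ d + i), Fm.neg (bigAnd d fun i => C (2 ^ d + i)),
        Fm.imp (bigAnd d C) (Fm.neg (bigAnd d fun i => C (2 ^ d + i)))]
      (by
        intro A hA
        simp only [List.mem_cons, List.not_mem_nil, or_false] at hA
        rcases hA with rfl | rfl | rfl | rfl
        · exact h3.1
        · exact h4
        · exact h3.2
        · exact h2) hroom
    have hset : ∀ A : Fm W, val A M' ≠ none → val A M' ≠ some false → val A M' = some true := by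
      intro A h1 h2
      obtain ⟨b, hb⟩ := Option.ne_none_iff_exists'.1 h1
      cases b
      · exact absurd hb h2
      · exact hb
    have e1 := hset _ (h7 (bigAnd d C) (by simp)) (ih C hC p3.1 h3.1 M' h5)
    have e2 := hset _ (h7 (bigAnd d fun i => C (2 ^ d + i)) (by simp))
      (ih _ (fun i => hC _) p4 h4 M' h5)
    obtain ⟨x, hx⟩ := Option.ne_none_iff_exists'.1
      (h7 (Fm.neg (bigAnd d fun i => C (2 ^ d + i))) (by simp))
    obtain ⟨y, hy⟩ := Option.ne_none_iff_exists'.1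
      (h7 (Fm.imp (bigAnd d C) (Fm.neg (bigAnd d fun i => C (2 ^ d + i)))) (by simp))
    have e3 := hW.coh.neg _ h4 h3.2 M' h5 _ _ e2 hx
    have e4 := hW.coh.imp _ _ h3.1 h3.2 h2 M' h5 _ _ _ e1 hx hy
    have e5 := hW.coh.neg _ h2 h1 M' h5 _ _ hy h6
    rw [e4, e3] at e5
    exact absurd e5 (by simp)

/-- an expander with much room -/
theorem exists_GHR (w R c : ℕ) (hR : 12 ≤ R) (hc : 10 ^ 10 * R * (w + 1) ^ 2 ≤ c) :
    ∃ (E U : Type) (_ : Fintype E) (_ : DecidableEq E) (_ : Fintype U) (_ : DecidableEq U)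
      (src tgt : E → U) (_ : U) (d : ℕ), GH src tgt d w ∧ R * L1 w + 280 ≤ d ∧
        2 * Fintype.card E + 1 ≤ c := by
  obtain ⟨d, hd⟩ : ∃ d, d = R * L1 w + 280 := ⟨_, rfl⟩
  obtain ⟨N, hN⟩ : ∃ N, N = 3000 * d + 1000 := ⟨_, rfl⟩
  obtain ⟨R', hF, hD, rsrc, rtgt, h1, h2, h3, _, h5⟩ := Frg3.exists_rgraph 0 (Fin N) (by
    rw [Fintype.card_fin]; omega)
  rw [Fintype.card_fin] at h3 h5
  refine ⟨R', Fin N, hF, hD, inferInstance, inferInstance, rsrc, rtgt, ⟨0, by omega⟩, d,
    ⟨h1, fun u => ?_, ?_, ?_⟩, hd.ge, ?_⟩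
  · have := h2 u; omega
  · refine expd_of_ch (c0 := 1000) (fun X => ?_) ?_ ?_
    · rw [Fintype.card_fin]; exact h3 X
    · rw [Fintype.card_fin]; omega
    · rw [Fintype.card_fin]; omega
  · have : 12 * L1 w ≤ R * L1 w := Nat.mul_le_mul_right _ hR
    omega
  · refine le_trans ?_ hc
    have e1 : L1 w ≤ 560 * (w + 1) ^ 2 := by
      unfold L1
      nlinarith [Nat.zero_le w]
    have e2 : 1 ≤ (w + 1) ^ 2 := Nat.one_le_pow _ _ (by omega)
    have e3 : R * L1 w ≤ 560 * (R * (w + 1) ^ 2) := by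
      calc R * L1 w ≤ R * (560 * (w + 1) ^ 2) := Nat.mul_le_mul_left _ e1
        _ = 560 * (R * (w + 1) ^ 2) := by ring
    have e4 : 1 * 1 ≤ R * (w + 1) ^ 2 := Nat.mul_le_mul (by omega) e2
    have e5 : 10 ^ 10 * R * (w + 1) ^ 2 = 10 ^ 10 * (R * (w + 1) ^ 2) := by ring
    rw [e5]
    generalize R * (w + 1) ^ 2 = z at e3 e4 ⊢
    omega

end Pool.Agent.H3.Md
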