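import Mathlib
import Pool.Agent.H3.Md.Lst

set_option autoImplicit false
set_option linter.unusedSectionVars false

/-!
# Exponential lower bounds for derivations with few counting gates
-/

namespace Pool.Agent.H3.Md

open Finset Filter Topology Pool.Agent.H3.Frg Pool.Agent.H3.Frg2 Pool.Agent.H3.Frg3
  Pool.Agent.H3.Frg4 Pool.Agent.H3.Ac Pool.Agent.H3.Wd Pool.Agent.H3.Alg Pool.Agent.H3.Alg2
  Pool.Agent.H1.FX

theorem Dg_le (c w t : ℕ) : Dg c w t ≤ (c * c + 1) ^ t * L1 w := by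
  induction t with
  | zero => simp [Dg]
  | succ t ih =>
    rw [Dg]
    have h1 : c * (c * Dg c w t) ≤ c * (c * ((c * c + 1) ^ t * L1 w)) :=
      Nat.mul_le_mul_left _ (Nat.mul_le_mul_left _ ih)
    have h2 : L1 w ≤ (c * c + 1) ^ t * L1 w :=
      Nat.le_mul_of_pos_left _ (Nat.pow_pos (by omega))
    have h3 : (c * c + 1) ^ (t + 1) * L1 w
        = c * (c * ((c * c + 1) ^ t * L1 w)) + (c * c + 1) ^ t * L1 w := by ring
    omega

/-- the theorem for one `n` -/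
theorem fixM {d D w ℓ t c : ℕ} {C : ℕ → Fm ℕ} {B e0 z : ℝ} {T : Fm ℕ}
    (hw : 10 ^ 11 ≤ w) (hz : 100 ≤ z) (hzℓ : (3 : ℝ) ^ ℓ + 2 * ℓ + 20 ≤ z)
    (he0 : z ^ (3 * t + 6) = e0) (hew : e0 ≤ w) (hB9 : 9 ≤ B) (hzB : z * z * B + 3 ≤ (2 : ℝ) ^ z)
    (hT : T = Fm.neg (bigAnd d C)) (hTB : (T.enc.length : ℝ) ≤ B)
    (hCB : ∀ i, ((C i).enc.length : ℝ) ≤ B)
    (hW : ∀ S : List (Fm ℕ), SubCl {A | A ∈ S} → (S.length : ℝ) ≤ (2 : ℝ) ^ e0 →
      (∀ A ∈ S, LDep (fun A => (A.enc.length : ℝ) ≤ B) D A) →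
      HasWorld {A | A ∈ S} (Set.range C) w (w ^ 4))
    (hc : (c : ℝ) ≤ z) (G : Finset (Fm ℕ))
    (hG : G.card ≤ c) (F : Finset (MF ℕ))
    (hF : CloM {A | ∃ X ∈ G, A = ofFm X} (F : Set (MF ℕ)))
    (hFL : ∀ A ∈ F, ∃ p : ℕ, p.Prime ∧ p ≠ 2 ∧
      Lv (fun A => 9 * (msz A : ℝ) ≤ B ∨ ∃ X ∈ G, A = ofFm X)
        (fun q => q ≤ c ∧ ∃ e, q = p ^ e) D c t A)
    {L : ℕ} (pf : Fin L → MF ℕ) (hpf : MDer ℓ {A | ∃ i, A = ofFm (C i)} pf)
    (hpF : ∀ i, pf i ∈ F) (i0 : Fin L) (hi0 : pf i0 = ofFm T) :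
    (2 : ℝ) ^ z ≤ F.card := by
  classical
  by_contra hcon
  rw [not_le] at hcon
  have hB0 : (0 : ℝ) ≤ B := by linarith
  have hz0 : (0 : ℝ) ≤ z := by linarith
  obtain ⟨P, hP⟩ : ∃ P : Fm ℕ → Prop, P = fun A => (A.enc.length : ℝ) ≤ B := ⟨_, rfl⟩
  have hP1 : ∀ A, P (Fm.neg A) → P A := by
    intro A h
    rw [hP] at h ⊢
    simp only at h ⊢
    refine le_trans ?_ h
    have : A.enc.length ≤ (Fm.neg A).enc.length := by
      simp only [Fm.enc, List.length_cons]; omega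
    exact_mod_cast this
  have hP2 : ∀ A B, P (Fm.imp A B) → P A ∧ P B := by
    intro A B' h
    rw [hP] at h ⊢
    simp only at h ⊢
    constructor
    · refine le_trans ?_ h
      have : A.enc.length ≤ (Fm.imp A B').enc.length := by
        simp only [Fm.enc, List.length_cons, List.length_append]; omega
      exact_mod_cast this
    · refine le_trans ?_ h
      have : B'.enc.length ≤ (Fm.imp A B').enc.length := by
        simp only [Fm.enc, List.length_cons, List.length_append]; omega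
      exact_mod_cast this
  have hc0 : ∀ b, P (cst 0 b) := by
    intro b
    rw [hP]
    simp only
    have : (cst 0 b : Fm ℕ).enc.length ≤ 9 := by
      cases b <;> simp [cst, Fm.enc]
    refine le_trans ?_ hB9
    exact_mod_cast this
  -- more atoms
  obtain ⟨G', hG'⟩ : ∃ G' : Finset (Fm ℕ), G' = (TT G.toList ℓ).toFinset := ⟨_, rfl⟩
  have hG'm : ∀ X, X ∈ G' ↔ X ∈ TT G.toList ℓ := fun X => by rw [hG', List.mem_toFinset]
  have hGG' : ∀ X ∈ G, X ∈ G' := fun X hX => by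
    rw [hG'm]
    exact TT_mono (j := 0) (Nat.zero_le _) (Finset.mem_toList.2 hX)
  have hG'c : (G'.card : ℝ) ≤ z * z := by
    have h1 : G'.card ≤ 3 ^ ℓ * G.card := by
      rw [hG']
      refine (List.toFinset_card_le _).trans ?_
      have := TT_len G.toList ℓ
      rwa [Finset.length_toList] at this
    have h2 : (G'.card : ℝ) ≤ (3 : ℝ) ^ ℓ * G.card := by exact_mod_cast h1
    have h3 : (G.card : ℝ) ≤ z := le_trans (by exact_mod_cast hG) hc
    have h4 : (3 : ℝ) ^ ℓ ≤ z := by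
      have : (0 : ℝ) ≤ ℓ := Nat.cast_nonneg _
      linarith
    calc (G'.card : ℝ) ≤ (3 : ℝ) ^ ℓ * G.card := h2
      _ ≤ z * z := mul_le_mul h4 h3 (Nat.cast_nonneg _) hz0
  obtain ⟨F', hF'⟩ : ∃ F' : Finset (MF ℕ), F' = F ∪ G'.image ofFm := ⟨_, rfl⟩
  have hF'm : ∀ A, A ∈ F' ↔ A ∈ F ∨ ∃ X ∈ G', A = ofFm X := by
    intro A
    rw [hF', Finset.mem_union, Finset.mem_image]
    constructor
    · rintro (h | ⟨X, h1, h2⟩)
      · exact Or.inl h
      · exact Or.inr ⟨X, h1, h2.symm⟩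
    · rintro (h | ⟨X, h1, h2⟩)
      · exact Or.inl h
      · exact Or.inr ⟨X, h1, h2.symm⟩
  have hF'clo : CloM {A | ∃ X ∈ (G' : Set (Fm ℕ)), A = ofFm X} (F' : Set (MF ℕ)) := by
    have hsub : ∀ A : MF ℕ, A ∉ {A | ∃ X ∈ (G' : Set (Fm ℕ)), A = ofFm X} →
        A ∉ {A | ∃ X ∈ G, A = ofFm X} := by
      rintro A h ⟨X, hX, h1⟩
      exact h ⟨X, hGG' X hX, h1⟩
    refine ⟨fun A hA hn => ?_, fun A B' hA hn => ?_, fun q i n l hA j => ?_⟩
    · rw [Finset.mem_coe, hF'm] at hA ⊢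
      rcases hA with h | h
      · exact Or.inl (hF.1 A h (hsub _ hn))
      · exact absurd h hn
    · rw [Finset.mem_coe, hF'm] at hA
      rw [Finset.mem_coe, Finset.mem_coe, hF'm, hF'm]
      rcases hA with h | h
      · have h1 := hF.2.1 A B' h (hsub _ hn)
        exact ⟨Or.inl h1.1, Or.inl h1.2⟩
      · exact absurd h hn
    · rw [Finset.mem_coe, hF'm] at hA ⊢
      rcases hA with h | ⟨X, _, h⟩
      · exact Or.inl (hF.2.2 q i n l h j)
      · exact absurd (ofFm_mod h.symm) id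
  obtain ⟨PM, hPM⟩ : ∃ PM : MF ℕ → Prop,
      PM = fun A => 9 * (msz A : ℝ) ≤ B ∨ ∃ X ∈ G', A = ofFm X := ⟨_, rfl⟩
  have hPMs : ∀ (b : MF ℕ → Bool) (A : MF ℕ), PM A → (P (sb 0 b A) ∨ sb 0 b A ∈ G') := by
    intro b A hA
    rw [hPM] at hA
    rcases hA with h | ⟨X, hX, h⟩
    · left
      rw [hP]
      have h1 := sb_len b A
      have h2 : ((sb 0 b A).enc.length : ℝ) ≤ 9 * (msz A : ℝ) := by exact_mod_cast h1
      exact h2.trans h
    · right
      rw [h, sb_ofFm]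
      exact hX
  have hF'L : ∀ A ∈ F', ∃ p : ℕ, p.Prime ∧ p ≠ 2 ∧
      Lv PM (fun q => q ≤ c ∧ ∃ e, q = p ^ e) D c t A := by
    intro A hA
    rcases (hF'm A).1 hA with h | ⟨X, hX, h⟩
    · obtain ⟨p, hp, hp2, h1⟩ := hFL A h
      refine ⟨p, hp, hp2, Lv_mono (fun Y hY => ?_) t h1⟩
      rw [hPM]
      rcases hY with hY | ⟨X, hX, hY⟩
      · exact Or.inl hY
      · exact Or.inr ⟨X, hGG' X hX, hY⟩
    · rw [h]
      refine ⟨3, Nat.prime_three, by norm_num, Lv_ofFm t ?_⟩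
      rw [hPM]
      exact Or.inr ⟨X, hX, rfl⟩
  obtain ⟨V0, v1, v2, v3, v4, v5, v6, v7⟩ := exists_V0 0 F' (G' : Set (Fm ℕ)) hF'clo
    (fun A hA => by
      obtain ⟨p, _, _, h⟩ := hF'L A hA
      exact Lv_card h)
  obtain ⟨F1, Gl, c1, c2, c3, c4, c5, c6, c7⟩ := exists_clo v5 hB0
  have hGP : ∀ A ∈ Gl, ¬ P A := by
    intro A hA
    rw [hP]
    exact c3 A hA
  have hF1D : ∀ A ∈ F1, LDep (fun A => P A ∨ A ∈ Gl) D A := by
    intro A hA
    rcases c7 A hA with h | h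
    · have hd : LDep (fun A => P A ∨ A ∈ G') D A := by
        rcases v7 A h with ⟨b, X, hX, h1⟩ | h1 | h1 | h1
        · rw [h1]
          obtain ⟨p, _, _, h2⟩ := hF'L X hX
          exact sb_LDep (fun b => Or.inl (hc0 b)) b (hPMs b) (Lv_dep h2)
        · rw [h1]; exact LDep.var _ _
        · rw [h1]; exact LDep.base _ _ (Or.inl (hc0 _))
        · rw [h1]; exact LDep.base _ _ (Or.inl (hc0 _))
      refine LDep_mono (fun Y hY => ?_) hd
      rcases hY with hY | hY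
      · exact Or.inl hY
      · rcases c6 Y hY with h' | h'
        · left
          rw [hP]
          exact h'
        · exact Or.inr h'
    · refine LDep.base _ _ (Or.inl ?_)
      rw [hP]
      exact h
  obtain ⟨S, s1, s2, s3, s4, s5⟩ := exists_star 0 Gl F1.toList (by
    have h1 : {A | A ∈ F1.toList} = (F1 : Set (Fm ℕ)) := by
      ext A
      simp
    rw [h1]
    exact c2)
  have hSd : ∀ A ∈ S, LDep (fun A => (A.enc.length : ℝ) ≤ B) D A := by
    intro A hA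
    have key : LDep P D A := by
      rcases s5 A hA with ⟨b, X, hX, h⟩ | h | h | h
      · rw [← h]
        exact star_LDep hP1 hP2 hGP hc0 b (hF1D X (Finset.mem_toList.1 hX))
      · rw [h]; exact LDep.var _ _
      · rw [h]; exact LDep.base _ _ (hc0 _)
      · rw [h]; exact LDep.base _ _ (hc0 _)
    rw [hP] at key
    exact key
  -- lengths
  have hGlz : (Gl.length : ℝ) ≤ z * z := le_trans (by exact_mod_cast c4) hG'c
  have h2z : (0 : ℝ) < (2 : ℝ) ^ z := Real.rpow_pos_of_pos (by norm_num) _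
  have hF'card : (F'.card : ℝ) ≤ (2 : ℝ) ^ z + z * z := by
    have h1 : F'.card ≤ F.card + G'.card := by
      rw [hF']
      exact (Finset.card_union_le _ _).trans (Nat.add_le_add_left Finset.card_image_le _)
    have h2 : (F'.card : ℝ) ≤ F.card + G'.card := by exact_mod_cast h1
    linarith
  have hzz : z * z ≤ (2 : ℝ) ^ z := by
    have : z * z * 1 ≤ z * z * B := mul_le_mul_of_nonneg_left (by linarith) (by positivity)
    linarith
  have h2c : (2 : ℝ) ^ c ≤ (2 : ℝ) ^ z := by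
    rw [← Real.rpow_natCast]
    exact Real.rpow_le_rpow_of_exponent_le (by norm_num) hc
  have hV0card : (V0.card : ℝ) ≤ 2 * ((2 : ℝ) ^ z * (2 : ℝ) ^ z) + 3 := by
    have h1 : (V0.card : ℝ) ≤ F'.card * 2 ^ c + 3 := by exact_mod_cast v6
    have h3 : (F'.card : ℝ) * 2 ^ c ≤ (2 * (2 : ℝ) ^ z) * (2 : ℝ) ^ z :=
      mul_le_mul (by linarith) h2c (by positivity) (by positivity)
    linarith
  have hF1card : (F1.card : ℝ) ≤ (2 : ℝ) ^ (2 * z + 2) := by
    have h1 : (G'.card : ℝ) * B ≤ z * z * B := mul_le_mul_of_nonneg_right hG'c hB0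
    have h3 : (1 : ℝ) ≤ (2 : ℝ) ^ z := Real.one_le_rpow (by norm_num) hz0
    have h4 : (2 : ℝ) ^ (2 * z + 2) = 4 * ((2 : ℝ) ^ z * (2 : ℝ) ^ z) := by
      rw [Real.rpow_add (by norm_num), show (2 * z) = z + z by ring,
        Real.rpow_add (by norm_num)]
      norm_num
      ring
    rw [h4]
    nlinarith
  have hzpow : z * z * z ≤ e0 := by
    rw [← he0]
    calc z * z * z = z ^ 3 := by ring
      _ ≤ z ^ (3 * t + 6) := pow_le_pow_right₀ (by linarith) (by omega)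
  have hSlen : (S.length : ℝ) ≤ (2 : ℝ) ^ e0 := by
    have h1 : (S.length : ℝ) ≤ 2 ^ Gl.length * F1.toList.length + 3 := by exact_mod_cast s4
    rw [Finset.length_toList] at h1
    have h3 : (2 : ℝ) ^ Gl.length ≤ (2 : ℝ) ^ (z * z) := by
      rw [← Real.rpow_natCast]
      exact Real.rpow_le_rpow_of_exponent_le (by norm_num) hGlz
    have h4 : (2 : ℝ) ^ Gl.length * F1.card ≤ (2 : ℝ) ^ (z * z) * (2 : ℝ) ^ (2 * z + 2) :=
      mul_le_mul h3 hF1card (Nat.cast_nonneg _) (Real.rpow_nonneg (by norm_num) _)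
    rw [← Real.rpow_add (by norm_num)] at h4
    have h5 : (3 : ℝ) ≤ (2 : ℝ) ^ (z * z + (2 * z + 2)) := by
      calc (3 : ℝ) ≤ (2 : ℝ) ^ (2 : ℝ) := by norm_num
        _ ≤ _ := Real.rpow_le_rpow_of_exponent_le (by norm_num) (by nlinarith)
    calc (S.length : ℝ) ≤ (2 : ℝ) ^ (z * z + (2 * z + 2)) * 2 := by linarith
      _ = (2 : ℝ) ^ (z * z + (2 * z + 2) + 1) := by
        rw [Real.rpow_add (by norm_num) (z * z + (2 * z + 2)), Real.rpow_one]
      _ ≤ (2 : ℝ) ^ e0 := by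
        refine Real.rpow_le_rpow_of_exponent_le (by norm_num) (le_trans ?_ hzpow)
        nlinarith
  obtain ⟨V, iV, iDV, val, hWd, hcard⟩ := hW S s1 hSlen hSd
  -- natural numbers
  have hGw : Gl.length ≤ w := by
    have h1 : (Gl.length : ℝ) ≤ w := by
      refine hGlz.trans (le_trans ?_ hew)
      refine le_trans ?_ hzpow
      nlinarith
    exact_mod_cast h1
  obtain ⟨R, hR⟩ : ∃ R, R = 2 * (ℓ + 3) + 1 + (c + 4) * (c * c + 1) ^ t + 12 := ⟨_, rfl⟩
  have hRw : R ≤ w := by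
    have h1 : (R : ℝ) ≤ w := by
      refine le_trans ?_ hew
      rw [← he0, hR]
      push_cast
      have q1 : (2 * ((ℓ : ℝ) + 3) + 1) ≤ z := by
        have : (0 : ℝ) < (3 : ℝ) ^ ℓ := by positivity
        linarith
      have q2 : (c : ℝ) + 4 ≤ z * z := by nlinarith
      have q3 : (c : ℝ) * c + 1 ≤ z ^ 3 := by
        have h5 : (c : ℝ) * c ≤ z * z := mul_le_mul hc hc (Nat.cast_nonneg _) hz0
        have h6 : z * z + 1 ≤ z ^ 3 := by nlinarith [mul_nonneg hz0 hz0]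
        linarith
      have q4 : ((c : ℝ) * c + 1) ^ t ≤ (z ^ 3) ^ t := pow_le_pow_left₀ (by positivity) q3 t
      have q5 : ((c : ℝ) + 4) * ((c : ℝ) * c + 1) ^ t ≤ (z * z) * (z ^ 3) ^ t :=
        mul_le_mul q2 q4 (by positivity) (by positivity)
      have q6 : (z * z) * (z ^ 3) ^ t = z ^ (3 * t + 2) := by
        rw [← pow_mul]
        ring
      have q7 : z ^ (3 * t + 2) + z + 12 ≤ z ^ (3 * t + 6) := by
        have r1 : z ^ 1 ≤ z ^ (3 * t + 2) := pow_le_pow_right₀ (by linarith) (by omega)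
        have r2 : z ^ (3 * t + 6) = z ^ (3 * t + 2) * z ^ 4 := by ring
        have r3 : (3 : ℝ) ≤ z ^ 4 := by
          calc (3 : ℝ) ≤ z ^ 1 := by linarith
            _ ≤ z ^ 4 := pow_le_pow_right₀ (by linarith) (by omega)
        rw [pow_one] at r1
        rw [r2]
        have r4 : z ^ (3 * t + 2) * 3 ≤ z ^ (3 * t + 2) * z ^ 4 :=
          mul_le_mul_of_nonneg_left r3 (by positivity)
        linarith
      linarith
    exact_mod_cast h1
  have hq1 : w * (3 * Gl.length) ≤ 3 * w ^ 2 := by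
    calc w * (3 * Gl.length) ≤ w * (3 * w) := Nat.mul_le_mul_left _ (Nat.mul_le_mul_left _ hGw)
      _ = 3 * w ^ 2 := by ring
  have hq2 : 10 ^ 11 * w ^ 3 ≤ w ^ 4 := by
    calc 10 ^ 11 * w ^ 3 ≤ w * w ^ 3 := Nat.mul_le_mul_right _ hw
      _ = w ^ 4 := by ring
  have hq3 : w ≤ w ^ 2 := Nat.le_self_pow (by norm_num) _
  have hq5 : w ^ 2 ≤ w ^ 3 := Nat.pow_le_pow_right (by omega) (by norm_num)
  have hq4 : 10 ^ 10 * R * (w + 1) ^ 2 ≤ 4 * 10 ^ 10 * w ^ 3 := by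
    have h1 : (w + 1) ^ 2 ≤ 4 * w ^ 2 := by nlinarith
    calc 10 ^ 10 * R * (w + 1) ^ 2 ≤ 10 ^ 10 * w * (4 * w ^ 2) :=
          Nat.mul_le_mul (Nat.mul_le_mul_left _ hRw) h1
      _ = 4 * 10 ^ 10 * w ^ 3 := by ring
  have hW2 := world_atm hWd s1 0 s2 Gl {A | A ∈ F1} (fun b A hA => s3 b A
      (Finset.mem_toList.2 hA)) (by
    rintro A ⟨i, rfl⟩
    have hPA : P (C i) := by
      rw [hP]
      exact hCB i
    exact ⟨fun h => hGP _ h hPA, fun b => star_short hP1 hP2 hGP b _ hPA⟩) (by omega)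
  obtain ⟨E, U, iE, dE, iU, dU, src, tgt, u0, dd, hGg, hRd, hE⟩ := exists_GHR w R
    (Fintype.card V - 2 * (w * (3 * Gl.length))) (by omega) (by omega)
  obtain ⟨val', hval'⟩ := world2_small hW2 (VH E) (by
    rw [card_VH]; exact ⟨_, rfl⟩) (by rw [card_VH]; exact hE)
  have h2K : ∀ (p : ℕ) [Fact p.Prime], p ≠ 2 → (2 : ZMod p) ≠ 0 := by
    intro p hp hp2 h
    have h1 : ((2 : ℕ) : ZMod p) = 0 := by exact_mod_cast h
    rw [ZMod.natCast_eq_zero_iff] at h1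
    exact hp2 ((Nat.prime_dvd_prime_iff_eq hp.out Nat.prime_two).1 h1)
  have hV0F1 : ∀ Z ∈ V0, Z ∈ F1 := fun Z hZ => c1 hZ
  have hTF : T ∈ F1 := by
    have h1 := v4 (fun _ => false) (ofFm T) ((hF'm _).2 (Or.inl (by rw [← hi0]; exact hpF i0)))
    rw [sb_ofFm] at h1
    exact hV0F1 _ h1
  have hPT : P T := by rw [hP]; exact hTB
  have hcl1 : ∀ A, P (Fm.neg A) → Fm.neg A ∈ {A | A ∈ F1} → A ∈ {A | A ∈ F1} := fun A hA h =>
    c2.1 A h fun hG => hGP _ hG hA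
  have hcl2 : ∀ A B, P (Fm.imp A B) → Fm.imp A B ∈ {A | A ∈ F1} →
      A ∈ {A | A ∈ F1} ∧ B ∈ {A | A ∈ F1} := fun A B hA h =>
    c2.2 A B h fun hG => hGP _ hG hA
  have hTnev : ∀ M, IsM M → val' T M ≠ some true := by
    intro M hM hb
    have hPb : P (bigAnd d C) := by
      rw [hT] at hPT
      exact hP1 _ hPT
    have hbF : bigAnd d C ∈ {A | A ∈ F1} := by
      rw [hT] at hTF hPT
      exact hcl1 _ hPT hTF
    have hroom4 : 2 * (w + w * 4) + 8 * w ≤ Fintype.card (VH E) := by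
      have h1 := hGg.room
      have h3 := d_lt_card hGg.exp
      have h4 : 10 * w ≤ L1 w := by
        unfold L1
        nlinarith [Nat.zero_le w]
      rw [card_VH]
      omega
    have hTS : T ∈ {A | A ∈ F1} := hTF
    obtain ⟨M', h5, h6, h7⟩ := snd_wit hval'.vals hTS hM hb [bigAnd d C]
      (by
        intro A hA
        rw [List.mem_singleton] at hA
        rw [hA]
        exact hbF) (by
        refine le_trans ?_ hroom4
        show 2 * (w + w * 1) + 8 * w ≤ _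
        omega)
    obtain ⟨x, hx⟩ := Option.ne_none_iff_exists'.1 (h7 (bigAnd d C) (by simp))
    rw [hT] at h6 hTS
    have h8 := hval'.coh.neg _ hbF hTS M' h5 _ _ hx h6
    have h9 : x = false := by
      cases x
      · rfl
      · exact absurd h8 (by decide)
    rw [h9] at hx
    exact never_bigAnd2 hval' hP1 hP2 hcl1 hcl2 hroom4 d C (fun i => ⟨i, rfl⟩) hPb hbF M' h5 hx
  refine no_mder (S := {A | A ∈ F1}) (Ax := Set.range C) (v0 := 0)
    (F := (F' : Set (MF ℕ))) (ℓ := ℓ) (c := c) (Dt := Dg c w t) u0 hGg hval'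
    (hV0F1 _ v1) (hV0F1 _ v2) (hV0F1 _ v3) (fun b A hA => hV0F1 _ (v4 b A hA)) pf hpf
    (fun i => (hF'm _).2 (Or.inl (hpF i))) ?_
    (fun p A => Lv PM (fun q => q ≤ c ∧ ∃ e, q = p ^ e) D c t A) hF'L ?_
    (fun p p' hp hp' hne B _ h h' => Lv_two hp hp' hne h h')
    (fun p hp hp2 A _ h => (ea_kdg (h2K p hp2) hGg hp.out 0 t A h).1)
    (fun p hp hp2 A _ h => (ea_kdg (h2K p hp2) hGg hp.out 0 t A h).2)
    ?_ ?_ ?_ (Dg_mono c w t) hTF hTnev i0 hi0
  · intro ψ σ hlen i hi χ hχ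
    have h1 := vis_inst (G := G.toList) (F := (F : Set (MF ℕ))) (by
      have h2 : {A : MF ℕ | ∃ X ∈ G.toList, A = ofFm X} = {A | ∃ X ∈ G, A = ofFm X} := by
        ext A
        simp
      rw [h2]
      exact hF) (ℓ := ℓ) σ ψ 0 (by omega) (Or.inl (by
        rw [← hi]
        exact hpF i)) χ hχ
    rw [Finset.mem_coe, hF'm]
    rcases h1 with h1 | ⟨X, hX, h1⟩
    · exact Or.inl h1
    · exact Or.inr ⟨X, (hG'm X).2 hX, h1⟩
  · intro p A B' _ hA hB h
    obtain ⟨_, _, _, hA'⟩ := hF'L A hA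
    obtain ⟨_, _, _, hB'⟩ := hF'L B' hB
    refine ⟨Lv_sub h (Lv_dep hA') fun M hM => ?_, Lv_sub h (Lv_dep hB') fun M hM => ?_⟩
    · rw [gates, List.mem_append]
      exact Or.inl hM
    · rw [gates, List.mem_append]
      exact Or.inr hM
  · intro A hA
    obtain ⟨_, _, _, h⟩ := hF'L A hA
    exact Lv_card h
  · rintro A ⟨i, rfl⟩ hA
    have h1 := v4 (fun _ => false) _ hA
    rw [sb_ofFm] at h1
    exact ⟨C i, hV0F1 _ h1, ⟨i, rfl⟩, rfl⟩
  · refine le_trans ?_ hRd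
    have h1 := Dg_le c w t
    have h3 : (c + 4) * Dg c w t ≤ (c + 4) * ((c * c + 1) ^ t * L1 w) :=
      Nat.mul_le_mul_left _ h1
    have h4 : R * L1 w = L1 w * (2 * (ℓ + 3) + 1) + (c + 4) * ((c * c + 1) ^ t * L1 w)
        + 12 * L1 w := by
      rw [hR]
      ring
    omega

end Pool.Agent.H3.Md
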