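import Mathlib
import Pool.Agent.H3.Md.FinM

set_option autoImplicit false
set_option linter.unusedSectionVars false

/-!
# The final theorem together with the bound on the size of all proofs without gates
-/

namespace Pool.Agent.H3.Md

open Finset Filter Topology Pool.Agent.H3.Frg Pool.Agent.H3.Frg2 Pool.Agent.H3.Frg3
  Pool.Agent.H3.Frg4 Pool.Agent.H3.Ac Pool.Agent.H3.Wd Pool.Agent.H3.Alg Pool.Agent.H3.Alg2
  Pool.Agent.H1.FX

theorem msz_ofFm (A : Fm ℕ) : msz (ofFm A) = A.enc.length := by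
  induction A with
  | var i => rfl
  | neg A ih => simp only [ofFm, msz, Fm.enc, List.length_cons, ih]
  | imp A B ihA ihB =>
    simp only [ofFm, msz, Fm.enc, List.length_cons, List.length_append, ihA, ihB]

theorem inst_ofFm {W : Type} (σ : ℕ → Fm W) (ψ : Fm ℕ) :
    inst (fun i => ofFm (σ i)) ψ = ofFm (ψ.bind σ) := by
  induction ψ with
  | var i => rfl
  | neg A ih => simp only [inst, Fm.bind, ofFm, ih]
  | imp A B ihA ihB => simp only [inst, Fm.bind, ofFm, ihA, ihB]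

/-- every proof without gates is large -/
theorem size_of_main {ℓ D t : ℕ} {x θ z : ℝ} {C : ℕ → Fm ℕ} {T : Fm ℕ}
    (hz : x ^ θ < (2 : ℝ) ^ z)
    (hmain : ∀ (F : Finset (MF ℕ)),
          CloM {A | ∃ X ∈ (∅ : Finset (Fm ℕ)), A = ofFm X} (F : Set (MF ℕ)) →
          (∀ A ∈ F, ∃ p : ℕ, p.Prime ∧ p ≠ 2 ∧
            Lv (fun A => (msz A : ℝ) ≤ x ^ θ ∨ ∃ X ∈ (∅ : Finset (Fm ℕ)), A = ofFm X)
              (fun q => q ≤ 0 ∧ ∃ e, q = p ^ e) D 0 t A) →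
          ∀ (L : ℕ) (pf : Fin L → MF ℕ), MDer ℓ {A | ∃ i, A = ofFm (C i)} pf →
            (∀ i, pf i ∈ F) → (∃ i, pf i = ofFm T) →
            (2 : ℝ) ^ z ≤ F.card)
    (Sch : Set (Fm ℕ)) (hSch : ∀ ψ ∈ Sch, ψ.len ≤ ℓ ∧ ∀ y, ψ.eval y = true)
    (L : ℕ) (pf : Fin L → Fm ℕ) (hpf : IsDer Sch (Set.range C) pf) (hex : ∃ i, pf i = T) :
    x ^ θ ≤ ∑ i, ((pf i).enc.length : ℝ) := by
  classical
  by_contra hcon
  push Not at hcon
  obtain ⟨S, hS⟩ : ∃ S : List (Fm ℕ), S = (List.finRange L).flatMap fun i => (pf i).subs :=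
    ⟨_, rfl⟩
  have hSm : ∀ A, A ∈ S ↔ ∃ i, A ∈ (pf i).subs := by
    intro A
    rw [hS, List.mem_flatMap]
    simp
  have hSlen : (S.length : ℝ) ≤ ∑ i, ((pf i).enc.length : ℝ) := by
    have h1 : S.length ≤ ∑ i, (pf i).enc.length := by
      rw [hS, List.length_flatMap, ← List.ofFn_eq_map, List.sum_ofFn]
      refine Finset.sum_le_sum fun i _ => ?_
      rw [length_subs]
      exact len_le_enc _
    exact_mod_cast h1
  have hsmall : ∀ A ∈ S, (A.enc.length : ℝ) ≤ x ^ θ := by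
    intro A hA
    obtain ⟨i, hi⟩ := (hSm A).1 hA
    have h1 : A.enc.length ≤ (pf i).enc.length := subs_enc (pf i) A hi
    have h2 : ((pf i).enc.length : ℝ) ≤ ∑ i, ((pf i).enc.length : ℝ) :=
      Finset.single_le_sum (f := fun i => ((pf i).enc.length : ℝ))
        (fun i _ => Nat.cast_nonneg _) (Finset.mem_univ i)
    have h3 : (A.enc.length : ℝ) ≤ ((pf i).enc.length : ℝ) := by exact_mod_cast h1
    linarith
  have hcl : ∀ A, (Fm.neg A ∈ S → A ∈ S) ∧ ∀ B, (Fm.imp A B ∈ S → A ∈ S ∧ B ∈ S) := by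
    intro A
    refine ⟨fun h => ?_, fun B h => ?_⟩
    · obtain ⟨i, hi⟩ := (hSm _).1 h
      exact (hSm _).2 ⟨i, (subs_cl (pf i)).1 A hi⟩
    · obtain ⟨i, hi⟩ := (hSm _).1 h
      have := (subs_cl (pf i)).2 A B hi
      exact ⟨(hSm _).2 ⟨i, this.1⟩, (hSm _).2 ⟨i, this.2⟩⟩
  have h0 := hmain (S.map ofFm).toFinset ?_ ?_ L (fun i => ofFm (pf i)) ?_ ?_ ?_
  · have h1 : (S.map ofFm).toFinset.card ≤ S.length := by
      refine (List.toFinset_card_le _).trans ?_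
      rw [List.length_map]
    have h2 : ((S.map ofFm).toFinset.card : ℝ) ≤ (S.length : ℝ) := by exact_mod_cast h1
    linarith
  · refine ⟨fun A h _ => ?_, fun A B h _ => ?_, fun q i n l h => ?_⟩
    · simp only [List.coe_toFinset, Set.mem_setOf_eq, List.mem_map] at h ⊢
      obtain ⟨X, hX, h1⟩ := h
      obtain ⟨Y, rfl, rfl⟩ := ofFm_neg h1
      exact ⟨Y, (hcl Y).1 hX, rfl⟩
    · simp only [List.coe_toFinset, Set.mem_setOf_eq, List.mem_map] at h ⊢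
      obtain ⟨X, hX, h1⟩ := h
      obtain ⟨Y, Z, rfl, rfl, rfl⟩ := ofFm_imp h1
      exact ⟨⟨Y, ((hcl Y).2 Z hX).1, rfl⟩, ⟨Z, ((hcl Y).2 Z hX).2, rfl⟩⟩
    · simp only [List.coe_toFinset, Set.mem_setOf_eq, List.mem_map] at h
      obtain ⟨X, hX, h1⟩ := h
      exact absurd h1 (fun h => ofFm_mod h)
  · intro A hA
    rw [List.mem_toFinset, List.mem_map] at hA
    obtain ⟨X, hX, rfl⟩ := hA
    refine ⟨3, Nat.prime_three, by norm_num, ?_⟩
    have h1 : MDep (fun A => (msz A : ℝ) ≤ x ^ θ ∨ ∃ X ∈ (∅ : Finset (Fm ℕ)), A = ofFm X) D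
        (ofFm X) := MDep.base _ _ (Or.inl (by rw [msz_ofFm]; exact hsmall X hX))
    cases t with
    | zero => exact ⟨h1, gates_ofFm X⟩
    | succ t =>
      refine ⟨h1, ?_, fun q i n l h => ?_⟩
      · rw [gates_ofFm]
        simp
      · rw [gates_ofFm] at h
        exact absurd h (by simp)
  · intro i
    rcases hpf i with ⟨j, hj⟩ | ⟨ψ, hψ, σ, hσ⟩ | ⟨j, k, hj, hk, h⟩
    · exact Or.inl ⟨j, by
        show ofFm (pf i) = ofFm (C j)
        rw [← hj]⟩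
    · refine Or.inr (Or.inl ⟨ψ, fun i => ofFm (σ i), (hSch ψ hψ).1, ?_, fun v _ => (hSch ψ hψ).2 _⟩)
      rw [inst_ofFm]
      show ofFm (pf i) = _
      rw [hσ]
    · refine Or.inr (Or.inr ⟨j, hj, k, hk, ?_⟩)
      show ofFm (pf k) = MF.imp (ofFm (pf j)) (ofFm (pf i))
      rw [h]
      rfl
  · intro i
    rw [List.mem_toFinset, List.mem_map]
    exact ⟨pf i, (hSm _).2 ⟨i, self_subs _⟩, rfl⟩
  · obtain ⟨i, hi⟩ := hex
    exact ⟨i, by rw [hi]⟩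

theorem finN (θ : ℝ) (hθ : θ < 2) (D t : ℕ) :
    ∃ (k : ℕ) (ε : ℝ), 0 < ε ∧ ∃ (d : ℕ → ℕ) (C : ℕ → ℕ → Fm ℕ) (τ : ℕ → Fm ℕ),
      (∀ n, τ n = Fm.neg (bigAnd (d n) (C n))) ∧
      (∀ n i, IsClause k (C n i)) ∧
      (∀ n x, (τ n).eval x = true) ∧
      (∀ n i, ∃ j, j < 2 ^ d n ∧ C n i = C n j) ∧
      Tendsto (fun n => (τ n).enc.length) atTop atTop ∧
      ∀ ℓ : ℕ, ∀ᶠ n in atTop,
        (∀ Sch : Set (Fm ℕ), (∀ ψ ∈ Sch, ψ.len ≤ ℓ ∧ ∀ x, ψ.eval x = true) →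
          ∀ (L : ℕ) (pf : Fin L → Fm ℕ), IsDer Sch (Set.range (C n)) pf → (∃ i, pf i = τ n) →
            ((τ n).enc.length : ℝ) ^ θ ≤ ∑ i, ((pf i).enc.length : ℝ)) ∧
        ∀ c : ℕ, (c : ℝ) ≤ ((τ n).enc.length : ℝ) ^ ε →
          ∀ (G : Finset (Fm ℕ)) (F : Finset (MF ℕ)), G.card ≤ c →
            CloM {A | ∃ X ∈ G, A = ofFm X} (F : Set (MF ℕ)) →
            (∀ A ∈ F, ∃ p : ℕ, p.Prime ∧ p ≠ 2 ∧
              Lv (fun A => (msz A : ℝ) ≤ ((τ n).enc.length : ℝ) ^ θ ∨ ∃ X ∈ G, A = ofFm X)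
                (fun q => q ≤ c ∧ ∃ e, q = p ^ e) D c t A) →
            ∀ (L : ℕ) (pf : Fin L → MF ℕ), MDer ℓ {A | ∃ i, A = ofFm (C n i)} pf →
              (∀ i, pf i ∈ F) → (∃ i, pf i = ofFm (τ n)) →
              (2 : ℝ) ^ (((τ n).enc.length : ℝ) ^ ε) ≤ F.card := by
  obtain ⟨k, ε, hε, d, C, τ, h1, h2, h3, h4, h5, h6⟩ := finM θ hθ D t
  refine ⟨k, ε, hε, d, C, τ, h1, h2, h3, h4, h5, fun ℓ => ?_⟩
  have hlim : Tendsto (fun n => ((τ n).enc.length : ℝ)) atTop atTop :=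
    tendsto_natCast_atTop_atTop.comp h5
  have hev : ∀ᶠ x : ℝ in atTop, x ^ θ < (2:ℝ) ^ (x ^ ε) := by
    have e1 : Tendsto (fun x : ℝ => x ^ ε) atTop atTop := tendsto_rpow_atTop hε
    have e2 : ∀ᶠ z : ℝ in atTop, z ^ (θ / ε) < (2:ℝ) ^ z := by
      have e3 := (isLittleO_rpow_exp_pos_mul_atTop (θ / ε) (Real.log_pos one_lt_two)).bound
        (show (0:ℝ) < 1 / 2 by norm_num)
      filter_upwards [e3, eventually_gt_atTop 0] with z hz hz0
      rw [Real.norm_eq_abs, Real.norm_eq_abs, abs_of_nonneg (by positivity),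
        abs_of_nonneg (by positivity)] at hz
      have e4 : (2:ℝ) ^ z = Real.exp (Real.log 2 * z) := by
        rw [Real.rpow_def_of_pos (by norm_num)]
      rw [e4]
      have := Real.exp_pos (Real.log 2 * z)
      linarith
    filter_upwards [e1.eventually e2, eventually_gt_atTop 0] with x hx hx0
    rw [← Real.rpow_mul hx0.le, mul_div_cancel₀ _ hε.ne'] at hx
    exact hx
  filter_upwards [h6 ℓ, hlim.eventually hev] with n h7 h8
  refine ⟨fun Sch hSch L pf hpf hex => ?_, h7⟩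
  refine size_of_main (D := D) (t := t) h8 (fun F => ?_) Sch hSch L pf hpf hex
  exact h7 0 (by rw [Nat.cast_zero]; positivity) ∅ F (by simp)

end Pool.Agent.H3.Md
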